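import Pool.Agent.Lib.MP_6c69fd_co_h13.Pieces

/-!
# MP_6c69fd_co: counting the deep vertices

Helper file.
-/

namespace MP_6c69fd_co

open Finset Filter Topology

variable {ι : Type} [Fintype ι] {u w : ι → ℝ}

/-- the lens lemma: there is an upper vertex on every level of the zone below the middle -/
theorem exists_isU {t j : ℕ} (H : Unb u w t) (hu : Function.Injective u)
    (hj2 : 2 * j + 2 ≤ Fintype.card ι) (hz : Fintype.card ι ≤ 2 * j + t + 1) :
    ∃ y, IsU u w t j y := by
  classical
  have hj : j < Fintype.card ι := by omega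
  obtain ⟨lo, hlo⟩ := exists_rk hu hj
  obtain ⟨hi, hhi⟩ := exists_rk hu (show Fintype.card ι - 1 - j < Fintype.card ι by omega)
  have hlt : u lo < u hi := by
    by_contra hcon
    push Not at hcon
    rcases hcon.lt_or_eq with h | h
    · have := rk_lt h
      omega
    · have := hu h
      subst this
      omega
  have hev1 : ∀ᶠ x : ℝ in atTop, ∀ k : ι, u k < u lo → val u w x k ≤ val u w x lo := by
    rw [Filter.eventually_all]
    intro k
    by_cases hk : u k < u lo
    · filter_upwards [eventually_gt_atTop ((w lo - w k) / (u lo - u k))] with x hx _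
      have e1 : 0 < u lo - u k := by linarith
      rw [div_lt_iff₀ e1] at hx
      unfold val
      linarith
    · exact Eventually.of_forall (fun x hx => absurd hx hk)
  have hev2 : ∀ᶠ x : ℝ in atTop, ∀ k : ι, u hi < u k → val u w (-x) k ≤ val u w (-x) hi := by
    rw [Filter.eventually_all]
    intro k
    by_cases hk : u hi < u k
    · filter_upwards [eventually_gt_atTop (-((w k - w hi) / (u k - u hi)))] with x hx _
      have e1 : 0 < u k - u hi := by linarith
      have hx' : -x < (w k - w hi) / (u k - u hi) := by linarith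
      rw [lt_div_iff₀ e1] at hx'
      unfold val
      linarith
    · exact Eventually.of_forall (fun x hx => absurd hx hk)
  have e0 : 0 < u hi - u lo := by linarith
  obtain ⟨x, ⟨⟨hx1, hx2⟩, hx3⟩, hx4⟩ := (((hev1.and hev2).and
    (eventually_gt_atTop ((-w lo - w hi - 2 * lev u w j 0) / (u hi - u lo)))).and
      (eventually_gt_atTop (0 : ℝ))).exists
  rw [div_lt_iff₀ e0] at hx3
  have hx4' : 0 < x := hx4
  have b1 : lev u w j x ≤ val u w x lo := by
    by_contra hcon
    push Not at hcon
    rw [lt_lev_iff hj] at hcon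
    have h1 : ((univ.filter (fun k => u k < u lo)) ∪ {lo}).card ≤ wbel u w x (val u w x lo) := by
      unfold wbel
      apply card_le_card
      intro k hk
      simp only [mem_union, mem_filter, mem_univ, true_and, mem_singleton] at hk ⊢
      rcases hk with hk | hk
      · exact hx1 k hk
      · rw [hk]
    rw [card_union_of_disjoint (by rw [disjoint_singleton_right]; simp), card_singleton] at h1
    unfold rk at hlo
    omega
  have b2 : lev u w j (-x) ≤ val u w (-x) hi := by
    by_contra hcon
    push Not at hcon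
    rw [lt_lev_iff hj] at hcon
    have h1 : ((univ.filter (fun k => u hi < u k)) ∪ {hi}).card ≤
        wbel u w (-x) (val u w (-x) hi) := by
      unfold wbel
      apply card_le_card
      intro k hk
      simp only [mem_union, mem_filter, mem_univ, true_and, mem_singleton] at hk ⊢
      rcases hk with hk | hk
      · exact hx2 k hk
      · rw [hk]
    rw [card_union_of_disjoint (by rw [disjoint_singleton_right]; simp), card_singleton] at h1
    have h2 := rk_add hu hi
    omega
  obtain ⟨y, _, hU⟩ := conc H hj hz (show -x < 0 by linarith) hx4' (by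
    unfold val at b1 b2
    have : lev u w j x + lev u w j (-x) < 2 * lev u w j 0 := by linarith
    nlinarith)
  exact ⟨y, hU⟩

section Neg

omit [Fintype ι] in
lemma val_neg' (x : ℝ) (i : ι) :
    val (fun i => -u i) (fun i => -w i) x i = -val u w x i := by
  unfold val
  ring

lemma thr_neg' (x c : ℝ) : thr (fun i => -u i) (fun i => -w i) x c = thr u w x (-c) := by
  unfold thr
  congr 1
  ext i
  simp only [mem_filter, mem_univ, true_and]
  rw [val_neg', neg_eq_iff_eq_neg]

lemma bel_neg' (x c : ℝ) : bel (fun i => -u i) (fun i => -w i) x c + wbel u w x (-c) =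
    Fintype.card ι := by
  classical
  unfold bel wbel
  rw [← card_univ, ← card_filter_add_card_filter_not (s := univ) (fun i => val u w x i ≤ -c),
    add_comm]
  congr 2
  ext i
  simp only [mem_filter, mem_univ, true_and]
  rw [val_neg', not_le, neg_lt]

lemma wbel_neg' (x c : ℝ) : wbel (fun i => -u i) (fun i => -w i) x c + bel u w x (-c) =
    Fintype.card ι := by
  have h1 := bel_neg' (u := u) (w := w) x c
  rw [wbel_eq, thr_neg']
  rw [wbel_eq] at h1
  omega

lemma lev_neg' {j : ℕ} (hj : j < Fintype.card ι) (x : ℝ) :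
    lev (fun i => -u i) (fun i => -w i) j x = -lev u w (Fintype.card ι - 1 - j) x := by
  have hj' : Fintype.card ι - 1 - j < Fintype.card ι := by omega
  have h := lev_spec (u := u) (w := w) hj' x
  have h1 := bel_neg' (u := u) (w := w) x (-lev u w (Fintype.card ι - 1 - j) x)
  have h2 := wbel_neg' (u := u) (w := w) x (-lev u w (Fintype.card ι - 1 - j) x)
  rw [neg_neg] at h1 h2
  apply lev_eq
  · omega
  · omega

lemma unb_neg {t : ℕ} (H : Unb u w t) : Unb (fun i => -u i) (fun i => -w i) t := by
  intro x c hc
  rw [thr_neg'] at hc ⊢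
  have h1 := bel_neg' (u := u) (w := w) x c
  rw [wbel_eq] at h1
  rcases H x (-c) hc with h | h
  · right
    omega
  · left
    omega

lemma isU_neg {t j : ℕ} (hj : j < Fintype.card ι) (x : ℝ) :
    IsU (fun i => -u i) (fun i => -w i) t j x ↔ IsD u w t (Fintype.card ι - 1 - j) x := by
  unfold IsU IsD
  rw [lev_neg' hj, thr_neg', neg_neg]
  have h1 := bel_neg' (u := u) (w := w) x (-lev u w (Fintype.card ι - 1 - j) x)
  rw [neg_neg, wbel_eq] at h1
  constructor
  · rintro ⟨a, b⟩
    exact ⟨a, by omega⟩
  · rintro ⟨a, b⟩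
    exact ⟨a, by omega⟩

lemma isD_neg {t j : ℕ} (hj : j < Fintype.card ι) (x : ℝ) :
    IsD (fun i => -u i) (fun i => -w i) t j x ↔ IsU u w t (Fintype.card ι - 1 - j) x := by
  unfold IsU IsD
  rw [lev_neg' hj, thr_neg', neg_neg]
  have h1 := bel_neg' (u := u) (w := w) x (-lev u w (Fintype.card ι - 1 - j) x)
  rw [neg_neg, wbel_eq] at h1
  constructor
  · rintro ⟨a, b⟩
    exact ⟨a, by omega⟩
  · rintro ⟨a, b⟩
    exact ⟨a, by omega⟩

omit [Fintype ι] in
lemma neg_inj (hu : Function.Injective u) : Function.Injective (fun i => -u i) := by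
  intro a b h
  exact hu (neg_injective h)

lemma US_neg {t j : ℕ} (hu : Function.Injective u) (hj : j < Fintype.card ι) :
    US (fun i => -u i) (fun i => -w i) t j = DS u w t (Fintype.card ι - 1 - j) := by
  ext x
  rw [mem_US (neg_inj hu), mem_DS hu, isU_neg hj]

lemma DS_neg {t j : ℕ} (hu : Function.Injective u) (hj : j < Fintype.card ι) :
    DS (fun i => -u i) (fun i => -w i) t j = US u w t (Fintype.card ι - 1 - j) := by
  ext x
  rw [mem_DS (neg_inj hu), mem_US hu, isD_neg hj]

lemma VS_neg {j : ℕ} (hu : Function.Injective u) (hj : j < Fintype.card ι) :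
    VS (fun i => -u i) (fun i => -w i) j = VS u w (Fintype.card ι - 1 - j) := by
  ext x
  rw [mem_VS (neg_inj hu), mem_VS hu, lev_neg' hj, thr_neg', neg_neg]

end Neg

lemma VS_card {t m : ℕ} (H : Unb u w t) (hu : Function.Injective u) (ht : 1 ≤ t) :
    (VS u w m).card = (US u w t m).card + (DS u w t m).card := by
  classical
  rw [← card_union_of_disjoint]
  · congr 1
    ext x
    rw [mem_union, mem_VS hu, mem_US hu, mem_DS hu]
    constructor
    · intro h
      rcases H x _ h with h' | h'
      · exact Or.inl ⟨h, h'⟩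
      · exact Or.inr ⟨h, h'⟩
    · rintro (h | h)
      · exact h.1
      · exact h.1
  · rw [disjoint_left]
    intro x hx hx'
    exact not_isU_isD ht ((mem_US hu).1 hx) ((mem_DS hu).1 hx')

/-- Exponentially many deep vertices. -/
theorem deep_count {t : ℕ} (H : Unb u w t) (hu : Function.Injective u) (ht : 3 ≤ t)
    (hn : t + 2 ≤ Fintype.card ι) :
    2 ^ ((Fintype.card ι - 1) / 2 - (Fintype.card ι - t + 1) / 2) ≤
      2 * ((US u w t ((Fintype.card ι - t + 1) / 2)).card +
        (DS u w t (Fintype.card ι - 1 - (Fintype.card ι - t + 1) / 2)).card + 2) := by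
  classical
  set n := Fintype.card ι with hnn
  set p := (n - t + 1) / 2 with hp
  set m := (n - 1) / 2 with hm
  set q := n - 1 - p with hq
  have hp1 : n ≤ 2 * p + t := by omega
  have hp2 : 2 * p + 2 ≤ n := by omega
  have hpm : p ≤ m := by omega
  have hmq : m ≤ q := by omega
  have hmn : m < n := by omega
  have hm2 : 2 * m ≤ n := by omega
  have hqn : q < n := by omega
  have hu' := neg_inj hu
  have H' := unb_neg H
  -- abbreviations
  set a : ℕ → ℕ := fun j => (US u w t j).card with ha
  set d : ℕ → ℕ := fun j => (DS u w t j).card with hd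
  have hface : ∀ j, p ≤ j → j + 1 ≤ q → 2 * (a j + d (j + 1)) ≤ a (j + 1) + d j + 1 := by
    intro j h1 h2
    exact face H hu (by omega) (by omega) (by omega) (by omega)
  have haU : ∀ i j, p ≤ i → i ≤ j → j ≤ q → a i ≤ a j := by
    intro i j h0 h1 h2
    apply card_le_card
    intro x hx
    rw [mem_US hu] at hx ⊢
    exact (isU_up hx (by omega) h1 (by omega)).2
  have hdD : ∀ i j, p ≤ i → i ≤ j → j ≤ q → d j ≤ d i := by
    intro i j h0 h1 h2
    apply card_le_card
    intro x hx
    rw [mem_DS hu] at hx ⊢
    exact (isD_down hx (by omega) h1 (by omega)).2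
  have hap : 1 ≤ a p := by
    obtain ⟨y, hy⟩ := exists_isU H hu hp2 (by omega)
    exact card_pos.2 ⟨y, (mem_US hu).2 hy⟩
  have hdq : 1 ≤ d q := by
    obtain ⟨y, hy⟩ := exists_isU H' hu' hp2 (by omega)
    have h1 : y ∈ US (fun i => -u i) (fun i => -w i) t p := (mem_US hu').2 hy
    rw [US_neg hu (by omega)] at h1
    exact card_pos.2 ⟨y, h1⟩
  have ha1 : ∀ j, p ≤ j → j ≤ q → 1 ≤ a j := fun j h1 h2 =>
    hap.trans (haU p j le_rfl h1 h2)
  have hd1 : ∀ j, p ≤ j → j ≤ q → 1 ≤ d j := fun j h1 h2 =>
    hdq.trans (hdD j q h1 h2 le_rfl)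
  -- growth upwards
  have hup : ∀ K, m + K ≤ q → (2 : ℤ) ^ K * (2 * a m - d m + 1) ≤
      2 * a (m + K) - d (m + K) + 1 := by
    intro K
    induction K with
    | zero => intro _; simp
    | succ K ih =>
      intro hK
      have h1 := ih (by omega)
      have h2 := hface (m + K) (by omega) (by omega)
      have h3 := hd1 (m + K + 1) (by omega) (by omega)
      have h4 : m + (K + 1) = m + K + 1 := by omega
      rw [h4, pow_succ]
      have h2' : (2 : ℤ) * (a (m + K) + d (m + K + 1)) ≤ a (m + K + 1) + d (m + K) + 1 := by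
        exact_mod_cast h2
      have h3' : (1 : ℤ) ≤ d (m + K + 1) := by exact_mod_cast h3
      linarith
  have hdown : ∀ K, K ≤ m - p → (2 : ℤ) ^ K * (2 * d m - a m + 1) ≤
      2 * d (m - K) - a (m - K) + 1 := by
    intro K
    induction K with
    | zero => intro _; simp
    | succ K ih =>
      intro hK
      have h1 := ih (by omega)
      have h2 := hface (m - (K + 1)) (by omega) (by omega)
      have h3 := ha1 (m - (K + 1)) (by omega) (by omega)
      have h4 : m - (K + 1) + 1 = m - K := by omega
      rw [h4] at h2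
      rw [pow_succ]
      have h2' : (2 : ℤ) * (a (m - (K + 1)) + d (m - K)) ≤ a (m - K) + d (m - (K + 1)) + 1 := by
        exact_mod_cast h2
      have h3' : (1 : ℤ) ≤ a (m - (K + 1)) := by exact_mod_cast h3
      linarith
  set K := m - p with hK
  have g1 := hup K (by omega)
  have g2 := hdown K (by omega)
  have e1 : m - K = p := by omega
  rw [e1] at g2
  have g3 := haU (m + K) q (by omega) (by omega) le_rfl
  have g4 := hd1 (m + K) (by omega) (by omega)
  have hV : (VS u w m).card = a m + d m := VS_card H hu (by omega)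
  have p1 : d p ≤ ((VS u w m).card + 2) * (a p + 1) :=
    pieces H hu (by omega) hpm hmn hm2 hp1
  have p2 : a q ≤ ((VS u w m).card + 2) * (d q + 1) := by
    have := pieces (j := p) (m := n - 1 - m) H' hu' (by omega) (by omega) (by omega) (by omega)
      hp1
    rw [DS_neg hu (by omega), US_neg hu (by omega), VS_neg hu (by omega)] at this
    have e2 : Fintype.card ι - 1 - (n - 1 - m) = m := by omega
    have e3 : Fintype.card ι - 1 - p = q := by omega
    rw [e2, e3] at this
    exact this
  have hmain : 2 ^ K * (a m + d m + 2) ≤ 2 * (a p + d q + 2) * (a m + d m + 2) := by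
    rw [hV] at p1 p2
    have q1 : (d p : ℤ) ≤ (a m + d m + 2) * (a p + 1) := by exact_mod_cast p1
    have q2 : (a q : ℤ) ≤ (a m + d m + 2) * (d q + 1) := by exact_mod_cast p2
    have q3 : (a (m + K) : ℤ) ≤ a q := by exact_mod_cast g3
    have q4 : (1 : ℤ) ≤ d (m + K) := by exact_mod_cast g4
    have q5 : (1 : ℤ) ≤ a p := by exact_mod_cast hap
    have : (2 : ℤ) ^ K * (a m + d m + 2) ≤ 2 * (a p + d q + 2) * (a m + d m + 2) := by
      have s1 : (2 : ℤ) ^ K * (a m + d m + 2) =
        (2 : ℤ) ^ K * (2 * a m - d m + 1) + (2 : ℤ) ^ K * (2 * d m - a m + 1) := by ring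
      rw [s1]
      nlinarith
    exact_mod_cast this
  exact Nat.le_of_mul_le_mul_right hmain (by omega)

end MP_6c69fd_co
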