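import Pool.Agent.Lib.MP_6c69fd_co_h13.Primal

/-!
# MP_6c69fd_co: subsets of algebraic curves

Helper file.
-/

set_option autoImplicit false

namespace MP_6c69fd_co

open Finset

/-- the value of a polynomial in two variables along the line `y = c + m x` -/
lemma eval_line (P : MvPolynomial (Fin 2) ℝ) (c m x : ℝ) :
    (MvPolynomial.aeval ![(Polynomial.X : Polynomial ℝ),
      Polynomial.C c + Polynomial.C m * Polynomial.X] P).eval x =
      MvPolynomial.eval ![x, c + m * x] P := by
  rw [MvPolynomial.aeval_def, ← Polynomial.coe_evalRingHom, MvPolynomial.hom_eval₂]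
  change _ = MvPolynomial.eval₂ (RingHom.id ℝ) _ P
  congr 1
  · ext
    simp
  · ext i
    fin_cases i
    · simp
    · simp

lemma eval_vert (P : MvPolynomial (Fin 2) ℝ) (c x : ℝ) :
    (MvPolynomial.aeval ![Polynomial.C c, (Polynomial.X : Polynomial ℝ)] P).eval x =
      MvPolynomial.eval ![c, x] P := by
  rw [MvPolynomial.aeval_def, ← Polynomial.coe_evalRingHom, MvPolynomial.hom_eval₂]
  change _ = MvPolynomial.eval₂ (RingHom.id ℝ) _ P
  congr 1
  · ext
    simp
  · ext i
    fin_cases i
    · simp
    · simp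

/-- A plane curve of degree `d` contains at most `d + 1` pairwise nonparallel lines which meet a
subset of the curve in more than `d` points. -/
theorem curve_lines (X : Finset (ℝ × ℝ)) (d : ℕ) (P : MvPolynomial (Fin 2) ℝ) (hP : P ≠ 0)
    (hd : P.totalDegree ≤ d) (hX : ∀ x ∈ X, MvPolynomial.eval ![x.1, x.2] P = 0)
    (T : Finset ((ℝ × ℝ) × (ℝ × ℝ)))
    (hT : ∀ a ∈ T, a.1 ≠ a.2 ∧ d + 1 ≤ (X.filter (fun r => cr a.1 a.2 r = 0)).card)
    (hpar : ∀ a ∈ T, ∀ b ∈ T, a ≠ b →
        (a.2.1 - a.1.1) * (b.2.2 - b.1.2) - (a.2.2 - a.1.2) * (b.2.1 - b.1.1) ≠ 0) :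
    T.card ≤ d + 1 := by
  classical
  -- at most one line is vertical
  have hsplit := card_filter_add_card_filter_not (s := T) (fun a => a.2.1 - a.1.1 = 0)
  have hvert : (T.filter (fun a => a.2.1 - a.1.1 = 0)).card ≤ 1 := by
    rw [card_le_one]
    intro a ha b hb
    rw [mem_filter] at ha hb
    by_contra hne
    apply hpar a ha.1 b hb.1 hne
    rw [ha.2, hb.2]
    ring
  set S := T.filter (fun a => ¬ a.2.1 - a.1.1 = 0) with hS
  have hST : ∀ a ∈ S, a ∈ T := fun a ha => (mem_filter.1 ha).1
  have hSn : ∀ a ∈ S, a.2.1 - a.1.1 ≠ 0 := fun a ha => (mem_filter.1 ha).2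
  -- slopes and intercepts
  set m : (ℝ × ℝ) × (ℝ × ℝ) → ℝ := fun a => (a.2.2 - a.1.2) / (a.2.1 - a.1.1) with hm
  set c : (ℝ × ℝ) × (ℝ × ℝ) → ℝ := fun a => a.1.2 - m a * a.1.1 with hc
  have hm' : ∀ a ∈ S, m a * (a.2.1 - a.1.1) = a.2.2 - a.1.2 := by
    intro a ha
    exact div_mul_cancel₀ _ (hSn a ha)
  have hslope : ∀ a ∈ S, ∀ b ∈ S, a ≠ b → m a ≠ m b := by
    intro a ha b hb hne h
    apply hpar a (hST a ha) b (hST b hb) hne
    rw [← hm' a ha, ← hm' b hb, h]
    ring
  -- the polynomial vanishes on the lines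
  have hzero : ∀ a ∈ S, ∀ x, MvPolynomial.eval ![x, c a + m a * x] P = 0 := by
    intro a ha x
    obtain ⟨-, h2⟩ := hT a (hST a ha)
    have hline : ∀ r ∈ X.filter (fun r => cr a.1 a.2 r = 0), r.2 = c a + m a * r.1 := by
      intro r hr
      have h3 := (mem_filter.1 hr).2
      unfold cr at h3
      rw [← hm' a ha] at h3
      have h4 : (a.2.1 - a.1.1) * (r.2 - (c a + m a * r.1)) = 0 := by
        rw [hc]
        linear_combination h3
      have := (mul_eq_zero.1 h4).resolve_left (hSn a ha)
      linarith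
    rw [← eval_line]
    have hz : MvPolynomial.aeval ![(Polynomial.X : Polynomial ℝ),
        Polynomial.C (c a) + Polynomial.C (m a) * Polynomial.X] P = 0 := by
      apply Polynomial.eq_zero_of_natDegree_lt_card_of_eval_eq_zero' _
        ((X.filter (fun r => cr a.1 a.2 r = 0)).image Prod.fst)
      · intro y hy
        obtain ⟨r, hr, rfl⟩ := mem_image.1 hy
        rw [eval_line, ← hline r hr]
        exact hX r (mem_filter.1 hr).1
      · rw [card_image_of_injOn]
        · have h5 := MvPolynomial.aeval_natDegree_le P hd ![(Polynomial.X : Polynomial ℝ),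
            Polynomial.C (c a) + Polynomial.C (m a) * Polynomial.X] (n := 1) (by
            intro i
            fin_cases i
            · exact Polynomial.natDegree_X_le
            · refine (Polynomial.natDegree_add_le _ _).trans ?_
              refine max_le (by simp) ?_
              exact (Polynomial.natDegree_C_mul_le _ _).trans Polynomial.natDegree_X_le)
          omega
        · intro r hr r' hr' heq
          have e1 := hline r hr
          have e2 := hline r' hr'
          rw [← heq, ← e1] at e2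
          exact Prod.ext heq e2.symm
    rw [hz, Polynomial.eval_zero]
  -- a good vertical line
  obtain ⟨z, hz⟩ : ∃ z : Fin 2 → ℝ, MvPolynomial.eval z P ≠ 0 := by
    by_contra hcon
    push Not at hcon
    exact hP (MvPolynomial.funext (fun z => by rw [hcon z, map_zero]))
  set g : Polynomial ℝ := MvPolynomial.aeval ![(Polynomial.X : Polynomial ℝ),
    Polynomial.C (z 1) + Polynomial.C 0 * Polynomial.X] P with hg
  have hg0 : g ≠ 0 := by
    intro h
    apply hz
    have h1 : MvPolynomial.eval ![z 0, z 1 + 0 * z 0] P = 0 := by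
      rw [← eval_line, ← hg, h, Polynomial.eval_zero]
    have h2 : ![z 0, z 1 + 0 * z 0] = z := by
      ext i
      fin_cases i
      · rfl
      · simp
    rwa [h2] at h1
  obtain ⟨R, hR⟩ := Infinite.exists_notMem_finset (g.roots.toFinset ∪
    (S ×ˢ S).image (fun ab => -(c ab.1 - c ab.2) / (m ab.1 - m ab.2)))
  rw [mem_union, not_or] at hR
  have hQ0 : MvPolynomial.aeval ![Polynomial.C R, (Polynomial.X : Polynomial ℝ)] P ≠ 0 := by
    intro h
    apply hR.1
    rw [Multiset.mem_toFinset, Polynomial.mem_roots hg0, Polynomial.IsRoot.def, hg, eval_line]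
    have h1 : MvPolynomial.eval ![R, z 1] P = 0 := by
      rw [← eval_vert, h, Polynomial.eval_zero]
    rw [zero_mul, add_zero]
    exact h1
  have hcardS : S.card ≤ d := by
    by_contra hcon
    push Not at hcon
    apply hQ0
    apply Polynomial.eq_zero_of_natDegree_lt_card_of_eval_eq_zero' _
      (S.image (fun a => c a + m a * R))
    · intro y hy
      obtain ⟨a, ha, rfl⟩ := mem_image.1 hy
      rw [eval_vert]
      exact hzero a ha R
    · rw [card_image_of_injOn]
      · have h5 := MvPolynomial.aeval_natDegree_le P hd ![Polynomial.C R,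
          (Polynomial.X : Polynomial ℝ)] (n := 1) (by
          intro i
          fin_cases i
          · simp
          · exact Polynomial.natDegree_X_le)
        omega
      · intro a ha b hb heq
        by_contra hne
        apply hR.2
        rw [mem_image]
        refine ⟨(a, b), mem_product.2 ⟨ha, hb⟩, ?_⟩
        have h6 : m a - m b ≠ 0 := sub_ne_zero.2 (hslope a ha b hb hne)
        rw [div_eq_iff h6]
        simp only at heq ⊢
        linarith
  omega

/-- subsets of algebraic curves -/
theorem on_curve (X : Finset (ℝ × ℝ)) (d t : ℕ) (hX : 2 ≤ X.card)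
    (P : MvPolynomial (Fin 2) ℝ) (hP : P ≠ 0) (hd : P.totalDegree ≤ d)
    (hX0 : ∀ x ∈ X, MvPolynomial.eval ![x.1, x.2] P = 0) (hdt : d ≤ 2 * t)
    (ht : 4 * (d + 3) < 2 ^ ((t + 1) / 2)) :
    ∃ p ∈ X, ∃ q ∈ X, p ≠ q ∧ imb X p q ≤ t := by
  by_contra hcon
  push Not at hcon
  obtain ⟨T, h1, h2, h3⟩ := deep_lines X (t + 1) hX (fun p hp q hq hne => by
    have := hcon p hp q hq hne
    push_cast
    omega)
  have h4 := curve_lines X d P hP hd hX0 T (fun a ha => by
    obtain ⟨g1, g2, g3, g4, -⟩ := h2 a ha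
    exact ⟨g3, by omega⟩) h3
  omega

end MP_6c69fd_co
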