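import Pool.Agent.Lib.MP_6c69fd_co_h13.Touch

/-!
# MP_6c69fd_co: lines touching the median level

Helper file.
-/

namespace MP_6c69fd_co

open Finset Filter Topology

variable {ι : Type} [Fintype ι] {u w : ι → ℝ}

/-- height of the level `m` over the line `i` -/
noncomputable def gap (u w : ι → ℝ) (m : ℕ) (i : ι) (x : ℝ) : ℝ := lev u w m x - val u w x i

lemma gap_cont {m : ℕ} (hm : m < Fintype.card ι) (i : ι) : Continuous (gap u w m i) := by
  unfold gap
  exact (lev_cont hm).sub (val_cont i)

lemma gap_loc {m : ℕ} (hm : m < Fintype.card ι) (hu : Function.Injective u) (i : ι) :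
    Loc (VS u w m) (gap u w m i) := by
  intro x hx hx'
  rw [mem_VS hu] at hx
  unfold gap at hx'
  filter_upwards [simple_local hm hx (i := i) (by linarith)] with z hz
  unfold gap
  rw [hz.1, sub_self]

/-- small neighbourhoods of a point contain no other vertices -/
lemma exists_nbhd (F : Finset ℝ) (x : ℝ) {P : ℝ → Prop} (hP : ∀ᶠ z in 𝓝 x, P z) :
    ∃ δ > 0, ∀ z, |z - x| ≤ δ → P z ∧ (z ≠ x → z ∉ F) := by
  classical
  have h1 : ∀ᶠ z in 𝓝 x, z ∉ F.erase x :=
    (F.erase x).finite_toSet.isClosed.isOpen_compl.mem_nhds (by simp)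
  obtain ⟨δ, hδ, h⟩ := Metric.eventually_nhds_iff.1 (hP.and h1)
  refine ⟨δ / 2, by linarith, ?_⟩
  intro z hz
  have := h (show dist z x < δ by rw [Real.dist_eq]; linarith)
  refine ⟨this.1, fun hne hzF => this.2 (mem_erase.2 ⟨hne, hzF⟩)⟩

/-- the lines below the level at a simple point -/
lemma bel_simple {m : ℕ} (hm : m < Fintype.card ι) {z : ℝ}
    (h : ¬ 2 ≤ thr u w z (lev u w m z)) : bel u w z (lev u w m z) = m := by
  have h1 := lev_spec (u := u) (w := w) hm z
  rw [wbel_eq] at h1
  omega

/-- number of lines touching the level `m` from below at a lower vertex -/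
lemma touch_count_D {m t : ℕ} (hm : m < Fintype.card ι) (hu : Function.Injective u) {x : ℝ}
    (hD : 2 * bel u w x (lev u w m x) + thr u w x (lev u w m x) + t ≤ 2 * m + 1) [DecidablePred
      (fun i => Tch (gap u w m i) x)] :
    t ≤ (univ.filter (fun i => Tch (gap u w m i) x)).card + 1 := by
  classical
  obtain ⟨δ, hδ, hnb⟩ := exists_nbhd (VS u w m) x
    ((ev_wbel (u := u) (w := w) (lev_cont hm) x).and (ev_bel (u := u) (w := w) (lev_cont hm) x))
  have hns : ∀ z, |z - x| ≤ δ → z ≠ x → ¬ 2 ≤ thr u w z (lev u w m z) := by
    intro z hz hzx h2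
    exact (hnb z hz).2 hzx ((mem_VS hu).2 h2)
  obtain ⟨r, hr⟩ := const_line (u := u) (w := w) hm (show x < x + δ by linarith) (by
    intro z hz
    exact hns z (by rw [abs_le]; constructor <;> linarith [hz.1, hz.2]) hz.1.ne')
  obtain ⟨l, hl⟩ := const_line (u := u) (w := w) hm (show x - δ < x by linarith) (by
    intro z hz
    exact hns z (by rw [abs_le]; constructor <;> linarith [hz.1, hz.2]) hz.2.ne)
  set c := lev u w m x with hc
  set A := univ.filter (fun i => val u w (x + δ) i < lev u w m (x + δ)) with hA
  set B := univ.filter (fun i => val u w (x - δ) i < lev u w m (x - δ)) with hB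
  set P := univ.filter (fun i => val u w x i = c) with hP
  set L := univ.filter (fun i => val u w x i < c) with hL
  have ex1 : |x + δ - x| ≤ δ := by rw [add_sub_cancel_left, abs_of_pos hδ]
  have ex2 : |x - δ - x| ≤ δ := by
    rw [show x - δ - x = -δ by ring, abs_neg, abs_of_pos hδ]
  have hAc : A.card = m := bel_simple hm (hns _ ex1 (by linarith))
  have hBc : B.card = m := bel_simple hm (hns _ ex2 (by linarith))
  have hAsub : A ⊆ (A ∩ P) ∪ L := by
    intro i hi
    have h1 : val u w (x + δ) i < lev u w m (x + δ) := (mem_filter.1 hi).2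
    have h2 := (hnb _ ex1).1.1 i h1.le
    rcases h2.lt_or_eq with h3 | h3
    · exact mem_union_right _ (mem_filter.2 ⟨mem_univ _, h3⟩)
    · exact mem_union_left _ (mem_inter.2 ⟨hi, mem_filter.2 ⟨mem_univ _, h3⟩⟩)
  have hBsub : B ⊆ (B ∩ P) ∪ L := by
    intro i hi
    have h1 : val u w (x - δ) i < lev u w m (x - δ) := (mem_filter.1 hi).2
    have h2 := (hnb _ ex2).1.1 i h1.le
    rcases h2.lt_or_eq with h3 | h3
    · exact mem_union_right _ (mem_filter.2 ⟨mem_univ _, h3⟩)
    · exact mem_union_left _ (mem_inter.2 ⟨hi, mem_filter.2 ⟨mem_univ _, h3⟩⟩)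
  have hA1 := (card_le_card hAsub).trans (card_union_le _ _)
  have hB1 := (card_le_card hBsub).trans (card_union_le _ _)
  have hLc : L.card = bel u w x c := rfl
  have hPc : P.card = thr u w x c := rfl
  have hu1 : ((A ∩ P) ∪ (B ∩ P)).card ≤ P.card := by
    apply card_le_card
    intro i hi
    rcases mem_union.1 hi with h | h
    · exact (mem_inter.1 h).2
    · exact (mem_inter.1 h).2
  have hui := card_union_add_card_inter (A ∩ P) (B ∩ P)
  have hsub : (A ∩ P) ∩ (B ∩ P) ⊆ univ.filter (fun i => Tch (gap u w m i) x) := by
    intro i hi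
    obtain ⟨h1, h2⟩ := mem_inter.1 hi
    have h3 : val u w (x + δ) i < lev u w m (x + δ) := (mem_filter.1 (mem_inter.1 h1).1).2
    have h4 : val u w (x - δ) i < lev u w m (x - δ) := (mem_filter.1 (mem_inter.1 h2).1).2
    have h5 : val u w x i = c := (mem_filter.1 (mem_inter.1 h1).2).2
    rw [mem_filter]
    refine ⟨mem_univ _, ?_, δ, hδ, Or.inl ?_⟩
    · unfold gap
      rw [h5, ← hc, sub_self]
    · have hrx := hr x ⟨le_refl _, by linarith⟩
      have hrd := hr (x + δ) ⟨by linarith, le_refl _⟩
      have hlx := hl x ⟨by linarith, le_refl _⟩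
      have hld := hl (x - δ) ⟨le_refl _, by linarith⟩
      rw [← hc] at hrx hlx
      rw [hrd] at h3
      rw [hld] at h4
      unfold val at h3 h4 h5 hrx hlx
      have k1 : u i < u r := by
        by_contra hcon
        push Not at hcon
        nlinarith
      have k2 : u l < u i := by
        by_contra hcon
        push Not at hcon
        nlinarith
      intro z hzx hz
      rw [abs_lt] at hz
      unfold gap
      rcases lt_or_gt_of_ne hzx with hlt | hgt
      · rw [hl z ⟨by linarith, hlt.le⟩]
        unfold val
        nlinarith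
      · rw [hr z ⟨hgt.le, by linarith⟩]
        unfold val
        nlinarith
  have hfin := card_le_card hsub
  omega

lemma gap_neg {m : ℕ} (hcard : Fintype.card ι = 2 * m + 1) (i : ι) (x : ℝ) :
    gap (fun i => -u i) (fun i => -w i) m i x = -gap u w m i x := by
  unfold gap
  rw [lev_neg' (by omega), val_neg']
  have : Fintype.card ι - 1 - m = m := by omega
  rw [this]
  ring

open Classical in
/-- number of lines touching the median level at a vertex -/
lemma touch_count {m t : ℕ} (hcard : Fintype.card ι = 2 * m + 1) (H : Unb u w t)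
    (hu : Function.Injective u) {x : ℝ} (hx : x ∈ VS u w m) :
    t ≤ (univ.filter (fun i => Tch (gap u w m i) x)).card + 1 := by
  have hm : m < Fintype.card ι := by omega
  rw [mem_VS hu] at hx
  rcases H x _ hx with h | h
  · have h1 := touch_count_D (u := fun i => -u i) (w := fun i => -w i) (t := t) hm (neg_inj hu)
      (x := x) (by
        rw [lev_neg' hm, thr_neg', neg_neg]
        have h1 := bel_neg' (u := u) (w := w) x (-lev u w m x)
        rw [neg_neg, wbel_eq] at h1
        have e : Fintype.card ι - 1 - m = m := by omega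
        rw [e]
        omega)
    refine h1.trans (Nat.add_le_add_right (card_le_card ?_) 1)
    intro i hi
    rw [mem_filter] at hi ⊢
    refine ⟨mem_univ _, ?_⟩
    have hh := hi.2
    have e : gap (fun i => -u i) (fun i => -w i) m i = fun x => -gap u w m i x := by
      funext z
      exact gap_neg hcard i z
    rw [e] at hh
    exact tch_neg hh
  · exact touch_count_D hm hu (by omega)

/-- behaviour of the median level at infinity -/
lemma gap_inf {m : ℕ} (hcard : Fintype.card ι = 2 * m + 1) (hu : Function.Injective u) (i : ι) :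
    ((∀ᶠ x in atBot, gap u w m i x < 0) ∧ (∀ᶠ x in atTop, 0 < gap u w m i x)) ∨
      ((∀ᶠ x in atBot, 0 < gap u w m i x) ∧ (∀ᶠ x in atTop, gap u w m i x < 0)) ∨
      ((∀ᶠ x in atBot, gap u w m i x = 0) ∧ (∀ᶠ x in atTop, gap u w m i x = 0)) := by
  classical
  obtain ⟨r, hr⟩ := exists_rk (u := u) hu (show m < Fintype.card ι by omega)
  have hr2 := rk_add hu r
  have hr' : (univ.filter (fun k => u k < u r)).card = m := hr
  -- comparison of two lines far away
  have htop : ∀ᶠ x in atTop, ∀ a b : ι, u a < u b → val u w x a < val u w x b := by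
    rw [Filter.eventually_all]
    intro a
    rw [Filter.eventually_all]
    intro b
    by_cases hk : u a < u b
    · filter_upwards [eventually_gt_atTop ((w b - w a) / (u b - u a))] with x hx _
      have e1 : 0 < u b - u a := by linarith
      rw [div_lt_iff₀ e1] at hx
      unfold val
      linarith
    · exact Eventually.of_forall (fun x hx => absurd hx hk)
  have hbot : ∀ᶠ x in atBot, ∀ a b : ι, u a < u b → val u w x b < val u w x a := by
    rw [Filter.eventually_all]
    intro a
    rw [Filter.eventually_all]
    intro b
    by_cases hk : u a < u b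
    · filter_upwards [eventually_lt_atBot ((w b - w a) / (u b - u a))] with x hx _
      have e1 : 0 < u b - u a := by linarith
      rw [lt_div_iff₀ e1] at hx
      unfold val
      linarith
    · exact Eventually.of_forall (fun x hx => absurd hx hk)
  have htl : ∀ᶠ x in atTop, lev u w m x = val u w x r := by
    filter_upwards [htop] with x hx
    have e1 : bel u w x (val u w x r) = m := by
      rw [← hr']
      unfold bel
      congr 1
      apply filter_congr
      intro k _
      constructor
      · intro hk
        by_contra hcon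
        push Not at hcon
        rcases hcon.lt_or_eq with h | h
        · exact absurd (hx r k h) (not_lt.2 hk.le)
        · rw [hu h] at hk
          exact lt_irrefl _ hk
      · intro hk
        exact hx k r hk
    apply lev_eq e1.le
    rw [wbel_eq, e1]
    have : 1 ≤ thr u w x (val u w x r) := by
      unfold thr
      rw [Nat.succ_le_iff, card_pos]
      exact ⟨r, by simp⟩
    omega
  have hbl : ∀ᶠ x in atBot, lev u w m x = val u w x r := by
    filter_upwards [hbot] with x hx
    have e0 : (univ.filter (fun k => u r < u k)).card = m := by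
      have h1 := card_filter_add_card_filter_not (s := (univ : Finset ι)) (fun k => u k ≤ u r)
      have h2 : (univ.filter (fun k => u k ≤ u r)).card = m + 1 := by
        have h3 : univ.filter (fun k => u k ≤ u r) =
            insert r (univ.filter (fun k => u k < u r)) := by
          ext k
          simp only [mem_filter, mem_univ, true_and, mem_insert]
          constructor
          · intro hk
            rcases hk.lt_or_eq with h | h
            · exact Or.inr h
            · exact Or.inl (hu h)
          · rintro (rfl | h)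
            · exact le_refl _
            · exact h.le
        rw [h3, card_insert_of_notMem (by simp), hr']
      rw [card_univ, hcard, h2] at h1
      have h4 : (univ.filter (fun k => u r < u k)) = univ.filter (fun k => ¬ u k ≤ u r) := by
        apply filter_congr
        intro k _
        exact not_le.symm
      rw [h4]
      omega
    have e1 : bel u w x (val u w x r) = m := by
      rw [← e0]
      unfold bel
      congr 1
      apply filter_congr
      intro k _
      constructor
      · intro hk
        by_contra hcon
        push Not at hcon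
        rcases hcon.lt_or_eq with h | h
        · exact absurd (hx k r h) (not_lt.2 hk.le)
        · rw [hu h] at hk
          exact lt_irrefl _ hk
      · intro hk
        exact hx r k hk
    apply lev_eq e1.le
    rw [wbel_eq, e1]
    have : 1 ≤ thr u w x (val u w x r) := by
      unfold thr
      rw [Nat.succ_le_iff, card_pos]
      exact ⟨r, by simp⟩
    omega
  rcases lt_trichotomy (u i) (u r) with h | h | h
  · left
    constructor
    · filter_upwards [hbl, hbot] with x h1 h2
      unfold gap
      rw [h1]
      have := h2 i r h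
      linarith
    · filter_upwards [htl, htop] with x h1 h2
      unfold gap
      rw [h1]
      have := h2 i r h
      linarith
  · right; right
    have hir := hu h
    subst hir
    constructor
    · filter_upwards [hbl] with x h1
      unfold gap
      rw [h1, sub_self]
    · filter_upwards [htl] with x h1
      unfold gap
      rw [h1, sub_self]
  · right; left
    constructor
    · filter_upwards [hbl, hbot] with x h1 h2
      unfold gap
      rw [h1]
      have := h2 r i h
      linarith
    · filter_upwards [htl, htop] with x h1 h2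
      unfold gap
      rw [h1]
      have := h2 r i h
      linarith

open Classical in
/-- at most two extreme lines at a vertex -/
lemma ext_card {m : ℕ} (hu : Function.Injective u) (Q : ℝ) :
    (univ.filter (fun i => Ext (gap u w m i) Q)).card ≤ 2 := by
  set S := univ.filter (fun i => Ext (gap u w m i) Q) with hS
  by_cases hne : S.Nonempty
  swap
  · rw [not_nonempty_iff_eq_empty] at hne
    rw [hne, card_empty]
    omega
  obtain ⟨a, ha, ha'⟩ := S.exists_min_image u hne
  obtain ⟨b, hb, hb'⟩ := S.exists_max_image u hne
  have hsub : S ⊆ {a, b} := by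
    intro i hi
    rw [mem_insert, mem_singleton]
    by_contra hcon
    push Not at hcon
    have h1 : u a < u i := lt_of_le_of_ne (ha' i hi) (fun h => hcon.1 (hu h.symm))
    have h2 : u i < u b := lt_of_le_of_ne (hb' i hi) (fun h => hcon.2 (hu h))
    obtain ⟨ea, ⟨xa, hxa, hxa'⟩, -⟩ := (mem_filter.1 ha).2
    obtain ⟨eb, ⟨xb, hxb, hxb'⟩, -⟩ := (mem_filter.1 hb).2
    obtain ⟨ei, -, hsign⟩ := (mem_filter.1 hi).2
    unfold gap at ea eb ei hxa' hxb'
    unfold val at ea eb ei hxa' hxb'
    have k1 : gap u w m i xa * (xa - Q) < 0 := by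
      unfold gap val
      have h3 : (lev u w m xa - (xa * u i - w i)) * (xa - Q) =
          -((u i - u a) * (xa - Q) ^ 2) := by
        linear_combination (xa - Q) * hxa' + (xa - Q) * ei - (xa - Q) * ea
      rw [h3]
      have h4 : 0 < (xa - Q) ^ 2 := by
        have : xa - Q ≠ 0 := sub_ne_zero.2 hxa
        positivity
      have h5 : 0 < u i - u a := by linarith
      have := mul_pos h5 h4
      linarith
    have k2 : 0 < gap u w m i xb * (xb - Q) := by
      unfold gap val
      have h3 : (lev u w m xb - (xb * u i - w i)) * (xb - Q) =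
          (u b - u i) * (xb - Q) ^ 2 := by
        linear_combination (xb - Q) * hxb' + (xb - Q) * ei - (xb - Q) * eb
      rw [h3]
      have h4 : 0 < (xb - Q) ^ 2 := by
        have : xb - Q ≠ 0 := sub_ne_zero.2 hxb
        positivity
      have h5 : 0 < u b - u i := by linarith
      exact mul_pos h5 h4
    rcases hsign with h | h
    · have := h xa
      linarith
    · have := h xb
      linarith
  exact (card_le_card hsub).trans card_le_two

/-- the number of vertices of the level on the line `i` -/
noncomputable def deg (u w : ι → ℝ) (m : ℕ) (i : ι) : ℕ :=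
  ((VS u w m).filter (fun x => gap u w m i x = 0)).card

open Classical in
/-- touching vertices of a line -/
lemma touch_line {m : ℕ} (hcard : Fintype.card ι = 2 * m + 1) (hu : Function.Injective u)
    (i : ι) :
    ((VS u w m).filter (fun x => Tch (gap u w m i) x)).card ≤ (deg u w m i - 3) +
      2 * ((VS u w m).filter (fun Q => Ext (gap u w m i) Q)).card := by
  have hm : m < Fintype.card ι := by omega
  set T := (VS u w m).filter (fun x => Tch (gap u w m i) x) with hT
  set J := (VS u w m).filter (fun x => gap u w m i x = 0) with hJ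
  have hdeg : deg u w m i = J.card := rfl
  by_cases hne : T.Nonempty
  swap
  · rw [not_nonempty_iff_eq_empty] at hne
    rw [hne, card_empty]
    omega
  obtain ⟨x0, hx0⟩ := hne
  have hTJ : T ⊆ J := by
    intro x hx
    rw [hT, mem_filter] at hx
    exact mem_filter.2 ⟨hx.1, hx.2.1⟩
  rw [hdeg]
  rcases dich_all (gap_cont hm i) (gap_loc hm hu i) (gap_inf hcard hu i)
    (mem_filter.1 hx0).2 with ⟨Q, hQ1, hQ2⟩ | ⟨q1, q2, q3, h12, h23, n1, n2, n3⟩
  · have h1 : 1 ≤ ((VS u w m).filter (fun Q => Ext (gap u w m i) Q)).card := by
      rw [Nat.succ_le_iff, card_pos]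
      exact ⟨Q, mem_filter.2 ⟨hQ1.1, hQ2⟩⟩
    have h2 : T ⊂ J := by
      rw [ssubset_iff_of_subset hTJ]
      exact ⟨Q, mem_filter.2 ⟨hQ1.1, hQ1.2.1⟩, fun h => hQ1.2.2 (mem_filter.1 h).2⟩
    have h3 := card_lt_card h2
    omega
  · have h1 : T ⊆ ((J.erase q1).erase q2).erase q3 := by
      intro x hx
      have hx' := (mem_filter.1 hx).2
      rw [mem_erase, mem_erase, mem_erase]
      refine ⟨?_, ?_, ?_, hTJ hx⟩
      · rintro rfl
        exact n3.2.2 hx'
      · rintro rfl
        exact n2.2.2 hx'
      · rintro rfl
        exact n1.2.2 hx'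
    have h2 := card_le_card h1
    have m1 : q1 ∈ J := mem_filter.2 ⟨n1.1, n1.2.1⟩
    have m2 : q2 ∈ J.erase q1 := mem_erase.2 ⟨h12.ne', mem_filter.2 ⟨n2.1, n2.2.1⟩⟩
    have m3 : q3 ∈ (J.erase q1).erase q2 := mem_erase.2 ⟨h23.ne', mem_erase.2
      ⟨(h12.trans h23).ne', mem_filter.2 ⟨n3.1, n3.2.1⟩⟩⟩
    rw [card_erase_of_mem m3, card_erase_of_mem m2, card_erase_of_mem m1] at h2
    omega

open Classical in
/-- the main inequality for arrangements -/
theorem excess {m t : ℕ} (hcard : Fintype.card ι = 2 * m + 1) (H : Unb u w t)
    (hu : Function.Injective u) :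
    t * (VS u w m).card ≤ 5 * (VS u w m).card + ∑ i, (deg u w m i - 3) := by
  have h1 : t * (VS u w m).card ≤
      (VS u w m).card + ∑ x ∈ VS u w m, (univ.filter (fun i => Tch (gap u w m i) x)).card := by
    rw [mul_comm, ← smul_eq_mul, ← sum_const]
    calc ∑ _x ∈ VS u w m, t ≤
        ∑ x ∈ VS u w m, ((univ.filter (fun i => Tch (gap u w m i) x)).card + 1) :=
          sum_le_sum (fun x hx => touch_count hcard H hu hx)
      _ = _ := by
          rw [sum_add_distrib, sum_const, smul_eq_mul, mul_one, add_comm]
  have h2 : ∑ x ∈ VS u w m, (univ.filter (fun i => Tch (gap u w m i) x)).card =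
      ∑ i, ((VS u w m).filter (fun x => Tch (gap u w m i) x)).card :=
    sum_card_bipartiteAbove_eq_sum_card_bipartiteBelow (fun x i => Tch (gap u w m i) x)
  have h3 : ∑ i, ((VS u w m).filter (fun x => Tch (gap u w m i) x)).card ≤
      ∑ i, (deg u w m i - 3) +
      2 * ∑ i, ((VS u w m).filter (fun Q => Ext (gap u w m i) Q)).card := by
    rw [mul_sum, ← sum_add_distrib]
    exact sum_le_sum (fun i _ => touch_line hcard hu i)
  have h4 : ∑ i, ((VS u w m).filter (fun Q => Ext (gap u w m i) Q)).card =
      ∑ Q ∈ VS u w m, (univ.filter (fun i => Ext (gap u w m i) Q)).card :=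
    (sum_card_bipartiteAbove_eq_sum_card_bipartiteBelow
      (fun Q i => Ext (gap u w m i) Q)).symm
  have h5 : ∑ Q ∈ VS u w m, (univ.filter (fun i => Ext (gap u w m i) Q)).card ≤
      2 * (VS u w m).card := by
    calc _ ≤ ∑ _Q ∈ VS u w m, 2 := sum_le_sum (fun Q _ => ext_card hu Q)
      _ = _ := by rw [sum_const, smul_eq_mul, mul_comm]
  omega

end MP_6c69fd_co
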