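import Pool.Agent.Lib.MP_6c69fd_co_h13.Count

/-!
# MP_6c69fd_co: from point sets to arrangements

Helper file.
-/

namespace MP_6c69fd_co

open Finset Filter Topology

/-- `cr p q r` is positive (negative) if `r` lies strictly on the left (right) side of the directed
line from `p` to `q`, and zero if `r` lies on this line. -/
def cr (p q r : ℝ × ℝ) : ℝ := (q.1 - p.1) * (r.2 - p.2) - (q.2 - p.2) * (r.1 - p.1)

/-- the imbalance of the line through `p` and `q` with respect to `X` -/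
noncomputable def imb (X : Finset (ℝ × ℝ)) (p q : ℝ × ℝ) : ℤ :=
  |((X.filter (fun r => 0 < cr p q r)).card : ℤ) - ((X.filter (fun r => cr p q r < 0)).card : ℤ)|

lemma exists_shear (X : Finset (ℝ × ℝ)) :
    ∃ ε : ℝ, Set.InjOn (fun p : ℝ × ℝ => p.1 + ε * p.2) X := by
  classical
  obtain ⟨ε, hε⟩ := Infinite.exists_notMem_finset
    ((X ×ˢ X).image (fun a => -(a.1.1 - a.2.1) / (a.1.2 - a.2.2)))
  refine ⟨ε, ?_⟩
  intro p hp q hq h
  by_contra hne
  simp only at h
  by_cases h2 : p.2 = q.2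
  · apply hne
    rw [h2] at h
    exact Prod.ext (by linarith) h2
  · apply hε
    rw [mem_image]
    refine ⟨(p, q), mem_product.2 ⟨hp, hq⟩, ?_⟩
    have h3 : p.2 - q.2 ≠ 0 := sub_ne_zero.2 h2
    rw [div_eq_iff h3]
    simp only
    linarith

lemma card_sub (X : Finset (ℝ × ℝ)) (P : ℝ × ℝ → Prop) [DecidablePred P] :
    ((univ : Finset X).filter (fun i => P i.1)).card = (X.filter P).card := by
  apply card_bij (fun i _ => i.1)
  · intro i hi
    rw [mem_filter] at hi ⊢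
    exact ⟨i.2, hi.2⟩
  · intro i _ k _ h
    exact Subtype.ext h
  · intro r hr
    rw [mem_filter] at hr
    exact ⟨⟨r, hr.1⟩, by rw [mem_filter]; exact ⟨mem_univ _, hr.2⟩, rfl⟩

variable {X : Finset (ℝ × ℝ)} {ε : ℝ}

/-- slopes of the dual lines -/
def su (X : Finset (ℝ × ℝ)) (ε : ℝ) (i : X) : ℝ := i.1.1 + ε * i.1.2

/-- intercepts of the dual lines -/
def sw (X : Finset (ℝ × ℝ)) (i : X) : ℝ := i.1.2

lemma su_inj (hε : Set.InjOn (fun p : ℝ × ℝ => p.1 + ε * p.2) X) :
    Function.Injective (su X ε) := by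
  intro i k hik
  exact Subtype.ext (hε i.2 k.2 hik)

lemma par_eq (i k i' k' : X) :
    (k.1.1 - i.1.1) * (k'.1.2 - i'.1.2) - (k.1.2 - i.1.2) * (k'.1.1 - i'.1.1) =
    (su X ε k - su X ε i) * (sw X k' - sw X i') - (sw X k - sw X i) * (su X ε k' - su X ε i') := by
  simp only [su, sw]
  ring

lemma slope_eq {x c : ℝ} {i k : X} (h1 : val (su X ε) (sw X) x i = c)
    (h2 : val (su X ε) (sw X) x k = c) : sw X k - sw X i = x * (su X ε k - su X ε i) := by
  unfold val at h1 h2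
  linarith

lemma cr_val {x c : ℝ} {i k : X} (r : X) (h1 : val (su X ε) (sw X) x i = c)
    (h2 : val (su X ε) (sw X) x k = c) :
    cr i.1 k.1 r.1 = (su X ε k - su X ε i) * (c - val (su X ε) (sw X) x r) := by
  have h4 : cr i.1 k.1 r.1 = (su X ε k - su X ε i) * (sw X r - sw X i) -
      (sw X k - sw X i) * (su X ε r - su X ε i) := by
    simp only [cr, su, sw]
    ring
  rw [h4, slope_eq h1 h2, ← h1]
  unfold val
  ring

/-- the two sides of a line in the primal and the dual picture -/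
lemma sides {x c : ℝ} {i k : X} (hlt : su X ε i < su X ε k)
    (h1 : val (su X ε) (sw X) x i = c) (h2 : val (su X ε) (sw X) x k = c) :
    (X.filter (fun r => 0 < cr i.1 k.1 r)).card = bel (su X ε) (sw X) x c ∧
    (X.filter (fun r => cr i.1 k.1 r < 0)).card + wbel (su X ε) (sw X) x c = X.card := by
  classical
  have h0 : 0 < su X ε k - su X ε i := by linarith
  constructor
  · unfold bel
    rw [← card_sub]
    congr 1
    apply filter_congr
    intro r _
    rw [cr_val r h1 h2]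
    constructor
    · intro hr
      have := (mul_pos_iff_of_pos_left h0).1 hr
      linarith
    · intro hr
      exact mul_pos h0 (by linarith)
  · unfold wbel
    rw [← card_sub, ← Fintype.card_coe X, ← card_univ,
      ← card_filter_add_card_filter_not (s := univ) (fun r : X => cr i.1 k.1 r.1 < 0)]
    congr 2
    apply filter_congr
    intro r _
    rw [cr_val r h1 h2]
    constructor
    · intro hr hr'
      have := mul_nonneg h0.le (sub_nonneg.2 hr)
      linarith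
    · intro hr
      by_contra hcon
      push Not at hcon
      exact hr (mul_neg_of_pos_of_neg h0 (by linarith))

lemma card_on {x c : ℝ} {i k : X} (hne : su X ε i ≠ su X ε k)
    (h1 : val (su X ε) (sw X) x i = c) (h2 : val (su X ε) (sw X) x k = c) :
    (X.filter (fun r => cr i.1 k.1 r = 0)).card = thr (su X ε) (sw X) x c := by
  classical
  unfold thr
  rw [← card_sub]
  congr 1
  apply filter_congr
  intro r _
  rw [cr_val r h1 h2, mul_eq_zero]
  constructor
  · rintro (h | h)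
    · exact absurd (sub_eq_zero.1 h).symm hne
    · exact (sub_eq_zero.1 h).symm
  · intro h
    exact Or.inr (by rw [h, sub_self])

lemma pair_of_thr {x c : ℝ} (h : 2 ≤ thr (su X ε) (sw X) x c)
    (hε : Set.InjOn (fun p : ℝ × ℝ => p.1 + ε * p.2) X) :
    ∃ i k : X, su X ε i < su X ε k ∧ val (su X ε) (sw X) x i = c ∧
      val (su X ε) (sw X) x k = c := by
  have hc' := h
  unfold thr at hc'
  rw [← Nat.lt_iff_add_one_le, one_lt_card] at hc'
  obtain ⟨i, hi, k, hk, hik⟩ := hc'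
  simp only [mem_filter, mem_univ, true_and] at hi hk
  rcases lt_trichotomy (su X ε i) (su X ε k) with h1 | h1 | h1
  · exact ⟨i, k, h1, hi, hk⟩
  · exact absurd (su_inj hε h1) hik
  · exact ⟨k, i, h1, hk, hi⟩

lemma ne_of_su {i k : X} (h : su X ε i < su X ε k) : i.1 ≠ k.1 := by
  intro h'
  have := Subtype.ext h'
  rw [this] at h
  exact lt_irrefl _ h

lemma unb_of {t : ℕ} (hε : Set.InjOn (fun p : ℝ × ℝ => p.1 + ε * p.2) X)
    (h : ∀ p ∈ X, ∀ q ∈ X, p ≠ q → (t : ℤ) ≤ imb X p q) : Unb (su X ε) (sw X) t := by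
  intro x c hc
  obtain ⟨i, k, hlt, h1, h2⟩ := pair_of_thr hc hε
  have h3 := h i.1 i.2 k.1 k.2 (ne_of_su hlt)
  obtain ⟨e1, e2⟩ := sides hlt h1 h2
  unfold imb at h3
  rw [e1] at h3
  rw [wbel_eq] at e2
  rw [le_abs] at h3
  rw [Fintype.card_coe]
  omega

lemma card_ge {t : ℕ} (hε : Set.InjOn (fun p : ℝ × ℝ => p.1 + ε * p.2) X) (hX : 2 ≤ X.card)
    (H : Unb (su X ε) (sw X) t) : t + 2 ≤ X.card := by
  have h1 : 1 < Fintype.card X := by rw [Fintype.card_coe]; omega
  obtain ⟨i, k, hik⟩ := Fintype.one_lt_card_iff.1 h1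
  have hne : su X ε i - su X ε k ≠ 0 := sub_ne_zero.2 (fun h => hik (su_inj hε h))
  set x := (sw X i - sw X k) / (su X ε i - su X ε k) with hx
  have hxk : val (su X ε) (sw X) x k = val (su X ε) (sw X) x i := by
    have h2 : x * (su X ε i - su X ε k) = sw X i - sw X k := by
      rw [hx, div_mul_cancel₀ _ hne]
    unfold val
    linarith
  have hthr : 2 ≤ thr (su X ε) (sw X) x (val (su X ε) (sw X) x i) := by
    unfold thr
    rw [← Nat.lt_iff_add_one_le, one_lt_card]
    exact ⟨i, by simp, k, by simp [hxk], hik⟩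
  have h2 := H _ _ hthr
  have h3 := wbel_le_card (su X ε) (sw X) x (val (su X ε) (sw X) x i)
  rw [wbel_eq] at h3
  rw [Fintype.card_coe] at h2 h3
  omega

/-- sets without long lines -/
theorem no_long_line (X : Finset (ℝ × ℝ)) (k : ℕ) (hX : 2 ≤ X.card)
    (hk : ∀ p ∈ X, ∀ q ∈ X, p ≠ q → (X.filter (fun r => cr p q r = 0)).card ≤ k) :
    ∃ p ∈ X, ∃ q ∈ X, p ≠ q ∧ 2 * imb X p q ≤ k := by
  by_contra hcon
  push Not at hcon
  obtain ⟨ε, hε⟩ := exists_shear X
  have h : ∀ p ∈ X, ∀ q ∈ X, p ≠ q → ((k / 2 + 1 : ℕ) : ℤ) ≤ imb X p q := by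
    intro p hp q hq hne
    have := hcon p hp q hq hne
    push_cast
    omega
  have H := unb_of hε h
  have hn := card_ge hε hX H
  have hcard : Fintype.card X = X.card := Fintype.card_coe X
  have hk2 : 2 ≤ k := by
    have h1 : 1 < X.card := by omega
    rw [one_lt_card] at h1
    obtain ⟨p, hp, q, hq, hne⟩ := h1
    refine le_trans ?_ (hk p hp q hq hne)
    rw [← Nat.lt_iff_add_one_le, one_lt_card]
    refine ⟨p, ?_, q, ?_, hne⟩
    · rw [mem_filter]
      exact ⟨hp, by unfold cr; ring⟩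
    · rw [mem_filter]
      exact ⟨hq, by unfold cr; ring⟩
  obtain ⟨y, hy⟩ := exists_isU (j := (X.card - (k / 2 + 1)) / 2) H (su_inj hε)
    (by rw [hcard]; omega) (by rw [hcard]; omega)
  obtain ⟨i, l, hlt, h1, h2⟩ := pair_of_thr hy.1 hε
  have h3 := hk i.1 i.2 l.1 l.2 (ne_of_su hlt)
  rw [card_on hlt.ne h1 h2] at h3
  have h4 := hy.2
  have h5 := (lev_spec (u := su X ε) (w := sw X) (j := (X.card - (k / 2 + 1)) / 2)
    (by rw [hcard]; omega) y).1
  rw [hcard] at h4
  omega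

/-- the main theorem for point sets -/
theorem deep_lines (X : Finset (ℝ × ℝ)) (t : ℕ) (hX : 2 ≤ X.card)
    (h : ∀ p ∈ X, ∀ q ∈ X, p ≠ q → (t : ℤ) ≤ imb X p q) :
    ∃ T : Finset ((ℝ × ℝ) × (ℝ × ℝ)), 2 ^ (t / 2) ≤ 4 * (T.card + 2) ∧
      (∀ a ∈ T, a.1 ∈ X ∧ a.2 ∈ X ∧ a.1 ≠ a.2 ∧
        2 * t - 1 ≤ (X.filter (fun r => cr a.1 a.2 r = 0)).card ∧
        2 * (X.filter (fun r => 0 < cr a.1 a.2 r)).card + t ≤ X.card + 1 ∧
        2 * (X.filter (fun r => cr a.1 a.2 r < 0)).card + t ≤ X.card + 1) ∧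
      (∀ a ∈ T, ∀ b ∈ T, a ≠ b →
        (a.2.1 - a.1.1) * (b.2.2 - b.1.2) - (a.2.2 - a.1.2) * (b.2.1 - b.1.1) ≠ 0) := by
  classical
  by_cases ht : t < 4
  · refine ⟨∅, ?_, by simp, by simp⟩
    have h1 : t / 2 ≤ 1 := by omega
    have h2 : 2 ^ (t / 2) ≤ 2 ^ 1 := Nat.pow_le_pow_right (by norm_num) h1
    simp only [card_empty]
    omega
  push Not at ht
  obtain ⟨ε, hε⟩ := exists_shear X
  have hu := su_inj hε
  have H := unb_of hε h
  have hn := card_ge hε hX H
  have hcard : Fintype.card X = X.card := Fintype.card_coe X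
  have hdc := deep_count H hu (by omega) (by rw [hcard]; exact hn)
  set n := Fintype.card X with hnn
  set p := (n - t + 1) / 2 with hp
  set q := n - 1 - p with hq
  have hp1 : n ≤ 2 * p + t := by omega
  have hpn : p < n := by omega
  have hqn : q < n := by omega
  have hpq : p ≤ q := by omega
  have hdisj : Disjoint (US (su X ε) (sw X) t p) (DS (su X ε) (sw X) t q) := by
    rw [disjoint_left]
    intro x hx hx'
    rw [mem_US hu] at hx
    rw [mem_DS hu] at hx'
    exact not_isU_isD (by omega) (isU_up hx hpn hpq (by omega)).2 hx'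
  -- the properties of the vertices
  have hv : ∀ x ∈ US (su X ε) (sw X) t p ∪ DS (su X ε) (sw X) t q, ∃ i k : X,
      su X ε i < su X ε k ∧ sw X k - sw X i = x * (su X ε k - su X ε i) ∧
      2 * t - 1 ≤ (X.filter (fun r => cr i.1 k.1 r = 0)).card ∧
      2 * (X.filter (fun r => 0 < cr i.1 k.1 r)).card + t ≤ X.card + 1 ∧
      2 * (X.filter (fun r => cr i.1 k.1 r < 0)).card + t ≤ X.card + 1 := by
    intro x hx
    rcases mem_union.1 hx with hx | hx
    · rw [mem_US hu] at hx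
      obtain ⟨i, k, hlt, h1, h2⟩ := pair_of_thr hx.1 hε
      refine ⟨i, k, hlt, slope_eq h1 h2, ?_⟩
      obtain ⟨e1, e2⟩ := sides hlt h1 h2
      rw [card_on hlt.ne h1 h2, e1]
      have g1 := hx.2
      have g2 := (lev_spec (u := su X ε) (w := sw X) hpn x).1
      rw [wbel_eq] at e2
      refine ⟨?_, ?_, ?_⟩ <;> omega
    · rw [mem_DS hu] at hx
      obtain ⟨i, k, hlt, h1, h2⟩ := pair_of_thr hx.1 hε
      refine ⟨i, k, hlt, slope_eq h1 h2, ?_⟩
      obtain ⟨e1, e2⟩ := sides hlt h1 h2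
      rw [card_on hlt.ne h1 h2, e1]
      have g1 := hx.2
      have g2 := (lev_spec (u := su X ε) (w := sw X) hqn x).2
      rw [wbel_eq] at e2 g2
      refine ⟨?_, ?_, ?_⟩ <;> omega
  have hv' : ∀ x : ℝ, ∃ a : (ℝ × ℝ) × (ℝ × ℝ),
      x ∈ US (su X ε) (sw X) t p ∪ DS (su X ε) (sw X) t q →
      ∃ i k : X, a = (i.1, k.1) ∧
      su X ε i < su X ε k ∧ sw X k - sw X i = x * (su X ε k - su X ε i) ∧
      2 * t - 1 ≤ (X.filter (fun r => cr i.1 k.1 r = 0)).card ∧
      2 * (X.filter (fun r => 0 < cr i.1 k.1 r)).card + t ≤ X.card + 1 ∧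
      2 * (X.filter (fun r => cr i.1 k.1 r < 0)).card + t ≤ X.card + 1 := by
    intro x
    by_cases hx : x ∈ US (su X ε) (sw X) t p ∪ DS (su X ε) (sw X) t q
    · obtain ⟨i, k, hh⟩ := hv x hx
      exact ⟨(i.1, k.1), fun _ => ⟨i, k, rfl, hh⟩⟩
    · exact ⟨((0, 0), (0, 0)), fun hx' => absurd hx' hx⟩
  choose f hf using hv'
  have hpar : ∀ x ∈ US (su X ε) (sw X) t p ∪ DS (su X ε) (sw X) t q,
      ∀ y ∈ US (su X ε) (sw X) t p ∪ DS (su X ε) (sw X) t q, x ≠ y →
      ((f x).2.1 - (f x).1.1) * ((f y).2.2 - (f y).1.2) -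
        ((f x).2.2 - (f x).1.2) * ((f y).2.1 - (f y).1.1) ≠ 0 := by
    intro x hx y hy hxy
    obtain ⟨i, k, e1, e2, e3, -⟩ := hf x hx
    obtain ⟨i', k', e1', e2', e3', -⟩ := hf y hy
    rw [e1, e1']
    show (k.1.1 - i.1.1) * (k'.1.2 - i'.1.2) - (k.1.2 - i.1.2) * (k'.1.1 - i'.1.1) ≠ 0
    rw [par_eq (ε := ε), e3, e3']
    intro h0
    have h1 : (su X ε k - su X ε i) * (su X ε k' - su X ε i') * (y - x) = 0 := by linarith
    have h2 : 0 < (su X ε k - su X ε i) * (su X ε k' - su X ε i') :=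
      mul_pos (by linarith) (by linarith)
    rcases mul_eq_zero.1 h1 with h3 | h3
    · exact h2.ne' h3
    · exact hxy (by linarith)
  have hinj : Set.InjOn f (US (su X ε) (sw X) t p ∪ DS (su X ε) (sw X) t q : Finset ℝ) := by
    intro x hx y hy hxy
    by_contra hne
    apply hpar x hx y hy hne
    rw [hxy]
    ring
  refine ⟨(US (su X ε) (sw X) t p ∪ DS (su X ε) (sw X) t q).image f, ?_, ?_, ?_⟩
  · rw [card_image_of_injOn hinj, card_union_of_disjoint hdisj]
    have hK : t / 2 - 1 ≤ (n - 1) / 2 - p := by omega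
    have h1 : 2 ^ (t / 2 - 1) ≤ 2 ^ ((n - 1) / 2 - p) := Nat.pow_le_pow_right (by norm_num) hK
    have h2 : 2 ^ (t / 2) = 2 * 2 ^ (t / 2 - 1) := by
      rw [← pow_succ']
      congr 1
      omega
    rw [h2]
    omega
  · intro a ha
    obtain ⟨x, hx, rfl⟩ := mem_image.1 ha
    obtain ⟨i, k, e1, e2, -, e4⟩ := hf x hx
    rw [e1]
    exact ⟨i.2, k.2, ne_of_su e2, e4⟩
  · intro a ha b hb hab
    obtain ⟨x, hx, rfl⟩ := mem_image.1 ha
    obtain ⟨y, hy, rfl⟩ := mem_image.1 hb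
    exact hpar x hx y hy (fun h => hab (by rw [h]))

/-- few directions of long lines -/
theorem few_dir (X : Finset (ℝ × ℝ)) (t : ℕ) (hX : 2 ≤ X.card) (D : Finset (ℝ × ℝ))
    (hD0 : ∀ d ∈ D, d ≠ 0)
    (hD : ∀ p ∈ X, ∀ q ∈ X, p ≠ q → 2 * t + 1 ≤ (X.filter (fun r => cr p q r = 0)).card →
      ∃ d ∈ D, (q.1 - p.1) * d.2 - (q.2 - p.2) * d.1 = 0)
    (hcard : 4 * (D.card + 2) < 2 ^ ((t + 1) / 2)) :
    ∃ p ∈ X, ∃ q ∈ X, p ≠ q ∧ imb X p q ≤ t := by
  classical
  by_contra hcon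
  push Not at hcon
  obtain ⟨T, h1, h2, h3⟩ := deep_lines X (t + 1) hX (fun p hp q hq hne => by
    have := hcon p hp q hq hne
    push_cast
    omega)
  have h4 : T.card ≤ D.card := by
    have hch : ∀ a : (ℝ × ℝ) × (ℝ × ℝ), ∃ d : ℝ × ℝ, a ∈ T → d ∈ D ∧
        (a.2.1 - a.1.1) * d.2 - (a.2.2 - a.1.2) * d.1 = 0 := by
      intro a
      by_cases ha : a ∈ T
      · obtain ⟨g1, g2, g3, g4, -⟩ := h2 a ha
        obtain ⟨d, hd, hd'⟩ := hD a.1 g1 a.2 g2 g3 (by omega)
        exact ⟨d, fun _ => ⟨hd, hd'⟩⟩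
      · exact ⟨0, fun h => absurd h ha⟩
    choose f hf using hch
    apply card_le_card_of_injOn f
    · intro a ha
      exact (hf a ha).1
    · intro a ha b hb hab
      by_contra hne
      have e1 := (hf a ha).2
      have e2 := (hf b hb).2
      rw [← hab] at e2
      have e3 := h3 a ha b hb hne
      have e0 := hD0 _ (hf a ha).1
      apply e3
      by_cases hz : (f a).1 = 0
      · have hz2 : (f a).2 ≠ 0 := fun h => e0 (Prod.ext hz h)
        rw [hz] at e1 e2
        have k1 : a.2.1 - a.1.1 = 0 := by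
          have : (a.2.1 - a.1.1) * (f a).2 = 0 := by linarith
          exact (mul_eq_zero.1 this).resolve_right hz2
        have k2 : b.2.1 - b.1.1 = 0 := by
          have : (b.2.1 - b.1.1) * (f a).2 = 0 := by linarith
          exact (mul_eq_zero.1 this).resolve_right hz2
        rw [k1, k2]
        ring
      · have : (f a).1 * ((a.2.1 - a.1.1) * (b.2.2 - b.1.2) -
            (a.2.2 - a.1.2) * (b.2.1 - b.1.1)) = 0 := by
          linear_combination (b.2.1 - b.1.1) * e1 - (a.2.1 - a.1.1) * e2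
        exact (mul_eq_zero.1 this).resolve_left hz
  omega

end MP_6c69fd_co
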