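import Pool.Agent.Lib.MP_6c69fd_co_h13.Excess
import Pool.Agent.Lib.MP_6c69fd_co_h13.Primal

/-!
# MP_6c69fd_co: points on at least four median lines

Helper file.
-/

namespace MP_6c69fd_co

open Finset Filter Topology

/-- sets with an odd number of points -/
theorem excess_odd (X : Finset (ℝ × ℝ)) (t m : ℕ) (hm : X.card = 2 * m + 1) (hX : 2 ≤ X.card)
    (ht : 3 ≤ t) (h : ∀ p ∈ X, ∀ q ∈ X, p ≠ q → (t : ℤ) ≤ imb X p q) :
    ∃ D : Finset ((ℝ × ℝ) × (ℝ × ℝ)), D.Nonempty ∧ 2 ^ ((t + 1) / 2) ≤ 4 * (D.card + 2) ∧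
      (∀ a ∈ D, a.1 ∈ X ∧ a.2 ∈ X ∧ a.1 ≠ a.2 ∧
        t + 1 ≤ (X.filter (fun r => cr a.1 a.2 r = 0)).card ∧
        (X.filter (fun r => 0 < cr a.1 a.2 r)).card ≤ m ∧
        (X.filter (fun r => cr a.1 a.2 r < 0)).card ≤ m) ∧
      (∀ a ∈ D, ∀ b ∈ D, a ≠ b →
        (a.2.1 - a.1.1) * (b.2.2 - b.1.2) - (a.2.2 - a.1.2) * (b.2.1 - b.1.1) ≠ 0) ∧
      t * D.card ≤ 5 * D.card +
        ∑ p ∈ X, ((D.filter (fun a => cr a.1 a.2 p = 0)).card - 3) := by
  classical
  obtain ⟨ε, hε⟩ := exists_shear X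
  have hu := su_inj hε
  have H := unb_of hε h
  have hn := card_ge hε hX H
  have hcard : Fintype.card X = X.card := Fintype.card_coe X
  have hcm : Fintype.card X = 2 * m + 1 := hcard.trans hm
  have hmn : m < Fintype.card X := by omega
  have hdc := deep_count H hu ht (by rw [hcard]; exact hn)
  have hex := excess hcm H hu
  set V := VS (su X ε) (sw X) m with hV
  set n := Fintype.card X with hnn
  set p := (n - t + 1) / 2 with hp
  set q := n - 1 - p with hq
  -- number of vertices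
  have hsub : US (su X ε) (sw X) t p ∪ DS (su X ε) (sw X) t q ⊆ V := by
    intro x hx
    rw [hV, mem_VS hu]
    rcases mem_union.1 hx with hx | hx
    · rw [mem_US hu] at hx
      exact (isU_up hx (by omega) (by omega) (by omega)).2.1
    · rw [mem_DS hu] at hx
      exact (isD_down hx (by omega) (by omega) (by omega)).2.1
  have hdisj : Disjoint (US (su X ε) (sw X) t p) (DS (su X ε) (sw X) t q) := by
    rw [disjoint_left]
    intro x hx hx'
    rw [mem_US hu] at hx
    rw [mem_DS hu] at hx'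
    exact not_isU_isD (by omega) (isU_up hx (by omega) (by omega) (by omega)).2 hx'
  have hVc := card_le_card hsub
  rw [card_union_of_disjoint hdisj] at hVc
  have hVne : V.Nonempty := by
    obtain ⟨y, hy⟩ := exists_isU (j := p) H hu (by omega) (by omega)
    exact ⟨y, hsub (mem_union_left _ ((mem_US hu).2 hy))⟩
  -- the lines
  have hv : ∀ x ∈ V, ∃ i k : X,
      su X ε i < su X ε k ∧ val (su X ε) (sw X) x i = lev (su X ε) (sw X) m x ∧
      val (su X ε) (sw X) x k = lev (su X ε) (sw X) m x := by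
    intro x hx
    rw [hV, mem_VS hu] at hx
    exact pair_of_thr hx hε
  have hv' : ∀ x : ℝ, ∃ a : (ℝ × ℝ) × (ℝ × ℝ), x ∈ V → ∃ i k : X, a = (i.1, k.1) ∧
      su X ε i < su X ε k ∧ val (su X ε) (sw X) x i = lev (su X ε) (sw X) m x ∧
      val (su X ε) (sw X) x k = lev (su X ε) (sw X) m x := by
    intro x
    by_cases hx : x ∈ V
    · obtain ⟨i, k, hh⟩ := hv x hx
      exact ⟨(i.1, k.1), fun _ => ⟨i, k, rfl, hh⟩⟩
    · exact ⟨((0, 0), (0, 0)), fun hx' => absurd hx' hx⟩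
  choose f hf using hv'
  have hpar : ∀ x ∈ V, ∀ y ∈ V, x ≠ y →
      ((f x).2.1 - (f x).1.1) * ((f y).2.2 - (f y).1.2) -
        ((f x).2.2 - (f x).1.2) * ((f y).2.1 - (f y).1.1) ≠ 0 := by
    intro x hx y hy hxy
    obtain ⟨i, k, e1, e2, g1, g2⟩ := hf x hx
    obtain ⟨i', k', e1', e2', g1', g2'⟩ := hf y hy
    rw [e1, e1']
    show (k.1.1 - i.1.1) * (k'.1.2 - i'.1.2) - (k.1.2 - i.1.2) * (k'.1.1 - i'.1.1) ≠ 0
    rw [par_eq (ε := ε), slope_eq g1 g2, slope_eq g1' g2']
    intro h0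
    have h1 : (su X ε k - su X ε i) * (su X ε k' - su X ε i') * (y - x) = 0 := by linarith
    have h2 : 0 < (su X ε k - su X ε i) * (su X ε k' - su X ε i') :=
      mul_pos (by linarith) (by linarith)
    rcases mul_eq_zero.1 h1 with h3 | h3
    · exact h2.ne' h3
    · exact hxy (by linarith)
  have hinj : Set.InjOn f (V : Set ℝ) := by
    intro x hx y hy hxy
    by_contra hne
    apply hpar x hx y hy hne
    rw [hxy]
    ring
  have hDc : (V.image f).card = V.card := card_image_of_injOn hinj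
  -- degrees
  have hdeg : ∀ r : X, ((V.image f).filter (fun a => cr a.1 a.2 r.1 = 0)).card =
      deg (su X ε) (sw X) m r := by
    intro r
    have e1 : (V.image f).filter (fun a => cr a.1 a.2 r.1 = 0) =
        (V.filter (fun x => gap (su X ε) (sw X) m r x = 0)).image f := by
      ext a
      simp only [mem_filter, mem_image]
      constructor
      · rintro ⟨⟨x, hx, rfl⟩, hcr⟩
        refine ⟨x, ⟨hx, ?_⟩, rfl⟩
        obtain ⟨i, k, e1, e2, g1, g2⟩ := hf x hx
        rw [e1] at hcr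
        have e3 : cr i.1 k.1 r.1 = 0 := hcr
        rw [cr_val r g1 g2, mul_eq_zero] at e3
        rcases e3 with e3 | e3
        · exact absurd e3 (by linarith [e2] : su X ε k - su X ε i > 0).ne'
        · exact e3
      · rintro ⟨x, ⟨hx, hg⟩, rfl⟩
        refine ⟨⟨x, hx, rfl⟩, ?_⟩
        obtain ⟨i, k, e1, e2, g1, g2⟩ := hf x hx
        rw [e1]
        show cr i.1 k.1 r.1 = 0
        rw [cr_val r g1 g2]
        have e4 : lev (su X ε) (sw X) m x - val (su X ε) (sw X) x r = 0 := hg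
        rw [e4, mul_zero]
    rw [e1, card_image_of_injOn (hinj.mono (by
      intro x hx
      exact (mem_filter.1 hx).1))]
    rfl
  refine ⟨V.image f, hVne.image f, ?_, ?_, ?_, ?_⟩
  · rw [hDc]
    have hK : (n - 1) / 2 - p + 1 = (t + 1) / 2 := by omega
    rw [← hK, pow_succ]
    omega
  · intro a ha
    obtain ⟨x, hx, rfl⟩ := mem_image.1 ha
    obtain ⟨i, k, e1, e2, g1, g2⟩ := hf x hx
    rw [e1]
    refine ⟨i.2, k.2, ne_of_su e2, ?_⟩
    show t + 1 ≤ (X.filter (fun r => cr i.1 k.1 r = 0)).card ∧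
      (X.filter (fun r => 0 < cr i.1 k.1 r)).card ≤ m ∧
      (X.filter (fun r => cr i.1 k.1 r < 0)).card ≤ m
    obtain ⟨s1, s2⟩ := sides e2 g1 g2
    rw [card_on e2.ne g1 g2, s1]
    have l1 := lev_spec (u := su X ε) (w := sw X) hmn x
    have hthr : 2 ≤ thr (su X ε) (sw X) x (lev (su X ε) (sw X) m x) := by
      rw [hV, mem_VS hu] at hx
      exact hx
    have l2 := H x _ hthr
    rw [wbel_eq] at s2 l1
    refine ⟨?_, ?_, ?_⟩ <;> omega
  · intro a ha b hb hab
    obtain ⟨x, hx, rfl⟩ := mem_image.1 ha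
    obtain ⟨y, hy, rfl⟩ := mem_image.1 hb
    exact hpar x hx y hy (fun h => hab (by rw [h]))
  · rw [hDc]
    have e1 : ∑ p ∈ X, (((V.image f).filter (fun a => cr a.1 a.2 p = 0)).card - 3) =
        ∑ i : X, (deg (su X ε) (sw X) m i - 3) := by
      rw [← sum_coe_sort X]
      exact sum_congr rfl (fun i _ => by rw [hdeg i])
    rw [e1]
    exact hex

/-- the general case -/
theorem excess_gen (X : Finset (ℝ × ℝ)) (t : ℕ) (ht : 4 ≤ t) (hX : 2 ≤ X.card)
    (h : ∀ p ∈ X, ∀ q ∈ X, p ≠ q → (t : ℤ) ≤ imb X p q) :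
    ∃ D : Finset ((ℝ × ℝ) × (ℝ × ℝ)), D.Nonempty ∧ 2 ^ (t / 2) ≤ 4 * (D.card + 2) ∧
      (∀ a ∈ D, a.1 ∈ X ∧ a.2 ∈ X ∧ a.1 ≠ a.2 ∧
        t ≤ (X.filter (fun r => cr a.1 a.2 r = 0)).card ∧
        2 * (X.filter (fun r => 0 < cr a.1 a.2 r)).card ≤ X.card ∧
        2 * (X.filter (fun r => cr a.1 a.2 r < 0)).card ≤ X.card) ∧
      (∀ a ∈ D, ∀ b ∈ D, a ≠ b →
        (a.2.1 - a.1.1) * (b.2.2 - b.1.2) - (a.2.2 - a.1.2) * (b.2.1 - b.1.1) ≠ 0) ∧
      t * D.card ≤ 6 * D.card +
        ∑ p ∈ X, ((D.filter (fun a => cr a.1 a.2 p = 0)).card - 3) := by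
  classical
  rcases Nat.even_or_odd X.card with hev | hodd
  · -- delete one point
    obtain ⟨x0, hx0⟩ : X.Nonempty := by
      rw [← card_pos]
      omega
    obtain ⟨c, hc⟩ := hev
    set Y := X.erase x0 with hY
    have hYc : Y.card = X.card - 1 := card_erase_of_mem hx0
    have hYX : Y ⊆ X := erase_subset _ _
    have hfil : ∀ P : ℝ × ℝ → Prop, (Y.filter P).card ≤ (X.filter P).card ∧
        (X.filter P).card ≤ (Y.filter P).card + 1 := by
      intro P
      constructor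
      · exact card_le_card (filter_subset_filter _ hYX)
      · have h1 : X.filter P ⊆ insert x0 (Y.filter P) := by
          intro y hy
          rw [mem_filter] at hy
          rw [mem_insert, mem_filter, hY, mem_erase]
          by_cases hyx : y = x0
          · exact Or.inl hyx
          · exact Or.inr ⟨⟨hyx, hy.1⟩, hy.2⟩
        exact (card_le_card h1).trans (card_insert_le _ _)
    have hc2 : 2 ≤ X.card - 1 := by
      by_contra hcon
      have hX2 : X.card = 2 := by omega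
      obtain ⟨p, q, hpq, hXpq⟩ := card_eq_two.1 hX2
      have h1 := h p (by rw [hXpq]; simp) q (by rw [hXpq]; simp) hpq
      unfold imb at h1
      have h2 := card_le_card (filter_subset (fun r => 0 < cr p q r) X)
      have h3 := card_le_card (filter_subset (fun r => cr p q r < 0) X)
      rw [le_abs] at h1
      omega
    have hYimb : ∀ p ∈ Y, ∀ q ∈ Y, p ≠ q → ((t - 1 : ℕ) : ℤ) ≤ imb Y p q := by
      intro p hp q hq hpq
      have h1 := h p (hYX hp) q (hYX hq) hpq
      unfold imb at h1 ⊢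
      have h2 := hfil (fun r => 0 < cr p q r)
      have h3 := hfil (fun r => cr p q r < 0)
      have h4 : (Y.filter (fun r => 0 < cr p q r)).card = (X.filter (fun r => 0 < cr p q r)).card ∨
          (Y.filter (fun r => cr p q r < 0)).card = (X.filter (fun r => cr p q r < 0)).card := by
        by_cases hs : 0 < cr p q x0
        · right
          congr 1
          rw [hY, filter_erase, erase_eq_of_notMem]
          rw [mem_filter]
          rintro ⟨-, h5⟩
          linarith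
        · left
          congr 1
          rw [hY, filter_erase, erase_eq_of_notMem]
          rw [mem_filter]
          rintro ⟨-, h5⟩
          exact hs h5
      rw [le_abs] at h1 ⊢
      push_cast [Nat.cast_sub (show 1 ≤ t by omega)]
      omega
    obtain ⟨D, hD1, hD2, hD3, hD4, hD5⟩ := excess_odd Y (t - 1) (c - 1) (by omega) (by omega)
      (by omega) hYimb
    refine ⟨D, hD1, ?_, ?_, hD4, ?_⟩
    · have e1 : (t - 1 + 1) / 2 = t / 2 := by omega
      rwa [e1] at hD2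
    · intro a ha
      obtain ⟨g1, g2, g3, g4, g5, g6⟩ := hD3 a ha
      have k1 := hfil (fun r => cr a.1 a.2 r = 0)
      have k2 := hfil (fun r => 0 < cr a.1 a.2 r)
      have k3 := hfil (fun r => cr a.1 a.2 r < 0)
      refine ⟨hYX g1, hYX g2, g3, ?_, ?_, ?_⟩ <;> omega
    · have e1 : ∑ p ∈ Y, ((D.filter (fun a => cr a.1 a.2 p = 0)).card - 3) ≤
          ∑ p ∈ X, ((D.filter (fun a => cr a.1 a.2 p = 0)).card - 3) :=
        sum_le_sum_of_subset hYX
      have e2 : t * D.card = (t - 1) * D.card + D.card := by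
        obtain ⟨s, rfl⟩ : ∃ s, t = s + 1 := ⟨t - 1, by omega⟩
        rw [Nat.add_sub_cancel]
        ring
      omega
  · obtain ⟨m, hm⟩ := hodd
    obtain ⟨D, hD1, hD2, hD3, hD4, hD5⟩ := excess_odd X t m hm hX (by omega) h
    refine ⟨D, hD1, ?_, ?_, hD4, ?_⟩
    · refine le_trans (Nat.pow_le_pow_right (by norm_num) ?_) hD2
      omega
    · intro a ha
      obtain ⟨g1, g2, g3, g4, g5, g6⟩ := hD3 a ha
      refine ⟨g1, g2, g3, ?_, ?_, ?_⟩ <;> omega
    · omega

/-- a point on four heavy lines -/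
theorem four_lines (X : Finset (ℝ × ℝ)) (k : ℕ) (hk : 6 ≤ k) (hX : 2 ≤ X.card)
    (hno : ¬ ∃ D : Finset ((ℝ × ℝ) × (ℝ × ℝ)), D.card = 4 ∧ (∃ p ∈ X, ∀ a ∈ D, cr a.1 a.2 p = 0) ∧
      (∀ a ∈ D, a.1 ∈ X ∧ a.2 ∈ X ∧ a.1 ≠ a.2 ∧
        k + 1 ≤ (X.filter (fun r => cr a.1 a.2 r = 0)).card) ∧
      (∀ a ∈ D, ∀ b ∈ D, a ≠ b →
        (a.2.1 - a.1.1) * (b.2.2 - b.1.2) - (a.2.2 - a.1.2) * (b.2.1 - b.1.1) ≠ 0)) :
    ∃ p ∈ X, ∃ q ∈ X, p ≠ q ∧ imb X p q ≤ k := by
  classical
  by_contra hcon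
  push Not at hcon
  obtain ⟨D, hD1, -, hD3, hD4, hD5⟩ := excess_gen X (k + 1) (by omega) hX (fun p hp q hq hpq => by
    have := hcon p hp q hq hpq
    push_cast
    omega)
  have hz : ∑ p ∈ X, ((D.filter (fun a => cr a.1 a.2 p = 0)).card - 3) = 0 := by
    apply sum_eq_zero
    intro p hp
    by_contra hne
    have h4 : 4 ≤ (D.filter (fun a => cr a.1 a.2 p = 0)).card := by omega
    obtain ⟨E, hE1, hE2⟩ := exists_subset_card_eq h4
    apply hno
    refine ⟨E, hE2, ⟨p, hp, fun a ha => (mem_filter.1 (hE1 ha)).2⟩, ?_, ?_⟩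
    · intro a ha
      obtain ⟨g1, g2, g3, g4, -⟩ := hD3 a (mem_filter.1 (hE1 ha)).1
      exact ⟨g1, g2, g3, g4⟩
    · intro a ha b hb hab
      exact hD4 a (mem_filter.1 (hE1 ha)).1 b (mem_filter.1 (hE1 hb)).1 hab
  rw [hz] at hD5
  have hpos := card_pos.2 hD1
  nlinarith

end MP_6c69fd_co
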