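import Mathlib

/-!
# MP_6c69fd_co: levels in an arrangement of lines

Helper file.  `ι` indexes the lines `y = x * u i - w i` of a finite arrangement.
-/

namespace MP_6c69fd_co

open Finset Filter Topology

variable {ι : Type} [Fintype ι] (u w : ι → ℝ)

/-- height of the line `i` over `x` -/
def val (x : ℝ) (i : ι) : ℝ := x * u i - w i

/-- number of lines strictly below `(x, c)` -/
noncomputable def bel (x c : ℝ) : ℕ := (univ.filter (fun i => val u w x i < c)).card

/-- number of lines weakly below `(x, c)` -/
noncomputable def wbel (x c : ℝ) : ℕ := (univ.filter (fun i => val u w x i ≤ c)).card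

/-- number of lines through `(x, c)` -/
noncomputable def thr (x c : ℝ) : ℕ := (univ.filter (fun i => val u w x i = c)).card

lemma wbel_eq (x c : ℝ) : wbel u w x c = bel u w x c + thr u w x c := by
  classical
  unfold wbel bel thr
  rw [← card_union_of_disjoint]
  · congr 1
    ext i
    simp only [mem_filter, mem_univ, true_and, mem_union]
    exact le_iff_lt_or_eq
  · rw [disjoint_filter]
    intro i _ h1 h2
    exact h1.ne h2

lemma wbel_le_card (x c : ℝ) : wbel u w x c ≤ Fintype.card ι := by
  unfold wbel
  exact card_le_univ _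

lemma wbel_le_bel {x c c' : ℝ} (h : c < c') : wbel u w x c ≤ bel u w x c' := by
  unfold wbel bel
  apply card_le_card
  intro i hi
  simp only [mem_filter, mem_univ, true_and] at hi ⊢
  exact hi.trans_lt h

lemma bel_mono {x c c' : ℝ} (h : c ≤ c') : bel u w x c ≤ bel u w x c' := by
  unfold bel
  apply card_le_card
  intro i hi
  simp only [mem_filter, mem_univ, true_and] at hi ⊢
  exact hi.trans_le h

lemma wbel_mono {x c c' : ℝ} (h : c ≤ c') : wbel u w x c ≤ wbel u w x c' := by
  unfold wbel
  apply card_le_card
  intro i hi
  simp only [mem_filter, mem_univ, true_and] at hi ⊢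
  exact hi.trans h

lemma exists_level {j : ℕ} (hj : j < Fintype.card ι) (x : ℝ) :
    ∃ c, bel u w x c ≤ j ∧ j < wbel u w x c := by
  classical
  let V : Finset ℝ := (univ.image (val u w x)).filter (fun c => j < wbel u w x c)
  have hne : Nonempty ι := by
    rw [← Fintype.card_pos_iff]
    omega
  obtain ⟨i₀, hi₀⟩ := Finite.exists_max (val u w x)
  have hV : V.Nonempty := by
    refine ⟨val u w x i₀, ?_⟩
    simp only [V, mem_filter, mem_image, mem_univ, true_and]
    refine ⟨⟨i₀, rfl⟩, ?_⟩
    have : wbel u w x (val u w x i₀) = Fintype.card ι := by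
      unfold wbel
      rw [filter_true_of_mem (fun i _ => hi₀ i), card_univ]
    omega
  obtain ⟨c, hc, hmin⟩ := V.exists_min_image id hV
  simp only [V, mem_filter, mem_image, mem_univ, true_and] at hc
  refine ⟨c, ?_, hc.2⟩
  by_contra hcon
  push Not at hcon
  have hne2 : (univ.filter (fun i => val u w x i < c)).Nonempty := by
    rw [← card_pos]
    unfold bel at hcon
    omega
  obtain ⟨i₁, hi₁, hmax⟩ := (univ.filter (fun i => val u w x i < c)).exists_max_image
    (val u w x) hne2
  simp only [mem_filter, mem_univ, true_and] at hi₁ hmax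
  have h1 : bel u w x c ≤ wbel u w x (val u w x i₁) := by
    unfold bel wbel
    apply card_le_card
    intro i hi
    simp only [mem_filter, mem_univ, true_and] at hi ⊢
    exact hmax i hi
  have h2 : val u w x i₁ ∈ V := by
    simp only [V, mem_filter, mem_image, mem_univ, true_and]
    exact ⟨⟨i₁, rfl⟩, by omega⟩
  have h3 := hmin _ h2
  simp only [id] at h3
  exact absurd hi₁ (not_lt.2 h3)

/-- the level `j` (counted from `0`) of the arrangement -/
noncomputable def lev (j : ℕ) (x : ℝ) : ℝ :=
  open Classical in if h : ∃ c, bel u w x c ≤ j ∧ j < wbel u w x c then h.choose else 0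

variable {u w}

lemma lev_spec {j : ℕ} (hj : j < Fintype.card ι) (x : ℝ) :
    bel u w x (lev u w j x) ≤ j ∧ j < wbel u w x (lev u w j x) := by
  unfold lev
  rw [dif_pos (exists_level u w hj x)]
  exact (exists_level u w hj x).choose_spec

lemma lt_lev_iff {j : ℕ} (hj : j < Fintype.card ι) {x c : ℝ} :
    c < lev u w j x ↔ wbel u w x c ≤ j := by
  have h := lev_spec (u := u) (w := w) hj x
  constructor
  · intro hc
    exact (wbel_le_bel u w hc).trans h.1
  · intro hc
    by_contra hcon
    push Not at hcon
    have := wbel_mono u w (x := x) hcon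
    omega

lemma lev_lt_iff {j : ℕ} (hj : j < Fintype.card ι) {x c : ℝ} :
    lev u w j x < c ↔ j < bel u w x c := by
  have h := lev_spec (u := u) (w := w) hj x
  constructor
  · intro hc
    exact h.2.trans_le (wbel_le_bel u w hc)
  · intro hc
    by_contra hcon
    push Not at hcon
    have := bel_mono u w (x := x) hcon
    omega

lemma lev_eq {j : ℕ} {x c : ℝ} (h1 : bel u w x c ≤ j)
    (h2 : j < wbel u w x c) : lev u w j x = c := by
  have hj : j < Fintype.card ι := h2.trans_le (wbel_le_card u w x c)
  apply le_antisymm
  · by_contra h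
    push Not at h
    rw [lt_lev_iff hj] at h
    omega
  · by_contra h
    push Not at h
    rw [lev_lt_iff hj] at h
    omega

lemma lev_mono {j j' : ℕ} (hjj : j ≤ j') (hj' : j' < Fintype.card ι) (x : ℝ) :
    lev u w j x ≤ lev u w j' x := by
  by_contra h
  push Not at h
  rw [lt_lev_iff (by omega)] at h
  have := lev_spec (u := u) (w := w) hj' x
  omega

lemma exists_on_lev {j : ℕ} (hj : j < Fintype.card ι) (x : ℝ) :
    1 ≤ thr u w x (lev u w j x) := by
  have h := lev_spec (u := u) (w := w) hj x
  rw [wbel_eq] at h
  omega

omit [Fintype ι] in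
lemma val_cont (i : ι) : Continuous (fun x => val u w x i) := by
  unfold val
  fun_prop

/-- near `y` no new line goes weakly below a continuous threshold -/
lemma ev_wbel {h : ℝ → ℝ} (hh : Continuous h) (y : ℝ) :
    ∀ᶠ x in 𝓝 y, ∀ i : ι, val u w x i ≤ h x → val u w y i ≤ h y := by
  rw [Filter.eventually_all]
  intro i
  by_cases hi : val u w y i ≤ h y
  · exact Eventually.of_forall (fun x _ => hi)
  · push Not at hi
    have : ∀ᶠ x in 𝓝 y, h x < val u w x i :=
      (hh.tendsto y).eventually_lt ((val_cont i).tendsto y) hi
    exact this.mono (fun x hx hx' => absurd hx (not_lt.2 hx'))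

/-- near `y` the lines strictly below a continuous threshold stay there -/
lemma ev_bel {h : ℝ → ℝ} (hh : Continuous h) (y : ℝ) :
    ∀ᶠ x in 𝓝 y, ∀ i : ι, val u w y i < h y → val u w x i < h x := by
  rw [Filter.eventually_all]
  intro i
  by_cases hi : val u w y i < h y
  · have : ∀ᶠ x in 𝓝 y, val u w x i < h x :=
      ((val_cont i).tendsto y).eventually_lt (hh.tendsto y) hi
    exact this.mono (fun x hx _ => hx)
  · exact Eventually.of_forall (fun x hx => absurd hx hi)

lemma lev_cont {j : ℕ} (hj : j < Fintype.card ι) : Continuous (lev u w j) := by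
  rw [continuous_iff_continuousAt]
  intro y
  unfold ContinuousAt
  rw [tendsto_order]
  constructor
  · intro a ha
    rw [lt_lev_iff hj] at ha
    refine (ev_wbel (u := u) (w := w) (continuous_const (y := a)) y).mono (fun x hx => ?_)
    rw [lt_lev_iff hj]
    refine le_trans ?_ ha
    unfold wbel
    apply card_le_card
    intro i hi
    simp only [mem_filter, mem_univ, true_and] at hi ⊢
    exact hx i hi
  · intro a ha
    rw [gt_iff_lt, lev_lt_iff hj] at ha
    refine (ev_bel (u := u) (w := w) (continuous_const (y := a)) y).mono (fun x hx => ?_)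
    rw [lev_lt_iff hj]
    refine lt_of_lt_of_le ha ?_
    unfold bel
    apply card_le_card
    intro i hi
    simp only [mem_filter, mem_univ, true_and] at hi ⊢
    exact hx i hi

/-- Local maximum lemma. -/
lemma local_max {j : ℕ} (hj : j < Fintype.card ι) (s y : ℝ)
    (hy : ∀ᶠ x in 𝓝 y, lev u w j x - s * x ≤ lev u w j y - s * y) :
    j + 1 ≤ bel u w y (lev u w j y) +
      (univ.filter (fun i => val u w y i = lev u w j y ∧ s ≤ u i)).card ∧
    j + 1 ≤ bel u w y (lev u w j y) +
      (univ.filter (fun i => val u w y i = lev u w j y ∧ u i ≤ s)).card := by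
  classical
  set c := lev u w j y with hc
  have hh : Continuous (fun x : ℝ => c + s * (x - y)) := by fun_prop
  have hev := hy.and (ev_wbel (u := u) (w := w) hh y)
  constructor
  · obtain ⟨x, ⟨hx1, hx2⟩, hxy⟩ := ((hev.filter_mono (nhdsWithin_le_nhds (s := Set.Iio y))).and
      self_mem_nhdsWithin).exists
    have hxy' : x < y := hxy
    have h1 : j + 1 ≤ wbel u w x (c + s * (x - y)) := by
      by_contra hcon
      have : c + s * (x - y) < lev u w j x := (lt_lev_iff hj).2 (by omega)
      linarith
    refine h1.trans ?_
    unfold wbel bel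
    rw [← card_union_of_disjoint]
    · apply card_le_card
      intro i hi
      simp only [mem_filter, mem_univ, true_and, mem_union] at hi ⊢
      have h2 := hx2 i hi
      simp only [sub_self, mul_zero, add_zero] at h2
      rcases h2.lt_or_eq with h3 | h3
      · exact Or.inl h3
      · refine Or.inr ⟨h3, ?_⟩
        unfold val at hi h3
        by_contra hcon
        push Not at hcon
        nlinarith
    · rw [disjoint_filter]
      intro i _ h1 h2
      exact h1.ne h2.1
  · obtain ⟨x, ⟨hx1, hx2⟩, hxy⟩ := ((hev.filter_mono (nhdsWithin_le_nhds (s := Set.Ioi y))).and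
      self_mem_nhdsWithin).exists
    have hxy' : y < x := hxy
    have h1 : j + 1 ≤ wbel u w x (c + s * (x - y)) := by
      by_contra hcon
      have : c + s * (x - y) < lev u w j x := (lt_lev_iff hj).2 (by omega)
      linarith
    refine h1.trans ?_
    unfold wbel bel
    rw [← card_union_of_disjoint]
    · apply card_le_card
      intro i hi
      simp only [mem_filter, mem_univ, true_and, mem_union] at hi ⊢
      have h2 := hx2 i hi
      simp only [sub_self, mul_zero, add_zero] at h2
      rcases h2.lt_or_eq with h3 | h3
      · exact Or.inl h3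
      · refine Or.inr ⟨h3, ?_⟩
        unfold val at hi h3
        by_contra hcon
        push Not at hcon
        nlinarith
    · rw [disjoint_filter]
      intro i _ h1 h2
      exact h1.ne h2.1

/-- sum of the two inequalities of `local_max` -/
lemma local_max_sum {j : ℕ} (hj : j < Fintype.card ι) (s y : ℝ)
    (hy : ∀ᶠ x in 𝓝 y, lev u w j x - s * x ≤ lev u w j y - s * y) :
    2 * j + 2 ≤ 2 * bel u w y (lev u w j y) + thr u w y (lev u w j y) +
      (univ.filter (fun i => val u w y i = lev u w j y ∧ u i = s)).card := by
  classical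
  obtain ⟨h1, h2⟩ := local_max hj s y hy
  have h3 := card_union_add_card_inter
    (univ.filter (fun i => val u w y i = lev u w j y ∧ s ≤ u i))
    (univ.filter (fun i => val u w y i = lev u w j y ∧ u i ≤ s))
  have h4 : ((univ.filter (fun i => val u w y i = lev u w j y ∧ s ≤ u i)) ∪
    (univ.filter (fun i => val u w y i = lev u w j y ∧ u i ≤ s))).card ≤
      thr u w y (lev u w j y) := by
    unfold thr
    apply card_le_card
    intro i hi
    simp only [mem_filter, mem_univ, true_and, mem_union] at hi ⊢
    rcases hi with hi | hi <;> exact hi.1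
  have h5 : ((univ.filter (fun i => val u w y i = lev u w j y ∧ s ≤ u i)) ∩
    (univ.filter (fun i => val u w y i = lev u w j y ∧ u i ≤ s))).card ≤
      (univ.filter (fun i => val u w y i = lev u w j y ∧ u i = s)).card := by
    apply card_le_card
    intro i hi
    simp only [mem_filter, mem_univ, true_and, mem_inter] at hi ⊢
    exact ⟨hi.1.1, le_antisymm hi.2.2 hi.1.2⟩
  omega

lemma exists_on_lev' {j : ℕ} (hj : j < Fintype.card ι) (x : ℝ) :
    ∃ i, val u w x i = lev u w j x := by
  have h := exists_on_lev (u := u) (w := w) hj x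
  unfold thr at h
  rw [Nat.succ_le_iff, card_pos] at h
  obtain ⟨i, hi⟩ := h
  exact ⟨i, (mem_filter.1 hi).2⟩

/-- at a simple point the level follows a line -/
lemma simple_local {j : ℕ} (hj : j < Fintype.card ι) {y : ℝ}
    (h : ¬ 2 ≤ thr u w y (lev u w j y)) {i : ι} (hii : val u w y i = lev u w j y) :
    ∀ᶠ x in 𝓝 y, lev u w j x = val u w x i ∧ ¬ 2 ≤ thr u w x (lev u w j x) := by
  classical
  have h1 : thr u w y (lev u w j y) = 1 := by
    have := exists_on_lev (u := u) (w := w) hj y
    omega
  have h1' := h1
  unfold thr at h1'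
  rw [card_eq_one] at h1'
  obtain ⟨i', hi'⟩ := h1'
  have hi0 : i ∈ univ.filter (fun i => val u w y i = lev u w j y) := by
    simp only [mem_filter, mem_univ, true_and]
    exact hii
  rw [hi'] at hi0
  obtain rfl := mem_singleton.1 hi0
  have huniq : ∀ k, val u w y k = val u w y i → k = i := by
    intro k hk
    have : k ∈ univ.filter (fun i => val u w y i = lev u w j y) := by
      simp only [mem_filter, mem_univ, true_and]
      rw [hk, hii]
    rw [hi'] at this
    exact mem_singleton.1 this
  filter_upwards [ev_wbel (u := u) (w := w) (val_cont (u := u) (w := w) i) y,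
    ev_bel (u := u) (w := w) (val_cont (u := u) (w := w) i) y] with x hx1 hx2
  have hspec := lev_spec (u := u) (w := w) hj y
  rw [← hii] at hspec h1
  have hb : bel u w x (val u w x i) = bel u w y (val u w y i) := by
    unfold bel
    congr 1
    ext k
    simp only [mem_filter, mem_univ, true_and]
    constructor
    · intro hk
      refine lt_of_le_of_ne (hx1 k hk.le) (fun hne => ?_)
      rw [huniq k hne] at hk
      exact lt_irrefl _ hk
    · exact hx2 k
  have hw : thr u w x (val u w x i) = 1 := by
    unfold thr
    rw [card_eq_one]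
    refine ⟨i, ?_⟩
    ext k
    simp only [mem_filter, mem_univ, true_and, mem_singleton]
    constructor
    · intro hk
      have h3 := hx1 k hk.le
      rcases h3.lt_or_eq with h4 | h4
      · exact absurd hk (hx2 k h4).ne
      · exact huniq k h4
    · rintro rfl
      rfl
  have hlev : lev u w j x = val u w x i := by
    apply lev_eq
    · rw [hb]; exact hspec.1
    · rw [wbel_eq, hb, hw]
      have := hspec.2
      rw [wbel_eq, h1] at this
      exact this
  refine ⟨hlev, ?_⟩
  rw [hlev, hw]
  omega

/-- higher levels through the same point -/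
lemma lev_up {j j' : ℕ} (hj : j < Fintype.card ι) (hjj : j ≤ j') {x : ℝ}
    (h : j' < wbel u w x (lev u w j x)) : lev u w j' x = lev u w j x :=
  lev_eq ((lev_spec hj x).1.trans hjj) h

/-- lower levels through the same point -/
lemma lev_down {j j' : ℕ} (hj' : j' < Fintype.card ι) (hjj : j ≤ j') {x : ℝ}
    (h : bel u w x (lev u w j' x) ≤ j) : lev u w j x = lev u w j' x :=
  lev_eq h (hjj.trans_lt (lev_spec hj' x).2)

end MP_6c69fd_co
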