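import Pool.Agent.Lib.MP_6c69fd_co_h13.Zone

/-!
# MP_6c69fd_co: convex pieces of a level

Helper file.
-/

namespace MP_6c69fd_co

open Finset Filter Topology

variable {ι : Type} [Fintype ι] {u w : ι → ℝ}

/-- A line which is not above the level `m` somewhere but strictly above it somewhere else leaves
the level at a point of the level. -/
theorem cross {m : ℕ} (hm : m < Fintype.card ι) {i : ι} {x0 x1 : ℝ}
    (h0 : val u w x0 i ≤ lev u w m x0) (h1 : lev u w m x1 < val u w x1 i) :
    ∃ x, val u w x i = lev u w m x ∧ (∃ᶠ z in 𝓝 x, lev u w m z < val u w z i) ∧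
      2 ≤ thr u w x (lev u w m x) := by
  set S : Set ℝ := {x | lev u w m x < val u w x i} with hS
  have hopen : IsOpen S := isOpen_lt (lev_cont hm) (val_cont i)
  have hne : S.Nonempty := ⟨x1, h1⟩
  have hun : S ≠ Set.univ := by
    intro h
    have : x0 ∈ S := by rw [h]; trivial
    exact absurd h0 (not_le.2 this)
  obtain ⟨x, hx⟩ := nonempty_frontier_iff.2 ⟨hne, hun⟩
  have hx1 : x ∈ closure S := hx.1
  have hx2 : x ∉ S := by
    have := hx.2
    rwa [hopen.interior_eq] at this
  have hle : lev u w m x ≤ val u w x i := by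
    have hcl : IsClosed {x | lev u w m x ≤ val u w x i} := isClosed_le (lev_cont hm) (val_cont i)
    have hsub : closure S ⊆ {x | lev u w m x ≤ val u w x i} :=
      closure_minimal (fun z (hz : lev u w m z < val u w z i) => hz.le) hcl
    exact hsub hx1
  have heq : val u w x i = lev u w m x := le_antisymm (not_lt.1 hx2) hle
  have hfr : ∃ᶠ z in 𝓝 x, lev u w m z < val u w z i := mem_closure_iff_frequently.1 hx1
  refine ⟨x, heq, hfr, ?_⟩
  by_contra hcon
  have hev := simple_local hm hcon heq
  obtain ⟨z, hz1, hz2⟩ := (hfr.and_eventually hev).exists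
  rw [hz2.1] at hz1
  exact lt_irrefl _ hz1

/-- the rank condition at `+∞` -/
lemma above_right {m : ℕ} (hm : m < Fintype.card ι) {i : ι}
    (h : m < (univ.filter (fun k => u k < u i)).card) : ∃ x, lev u w m x < val u w x i := by
  have hev : ∀ᶠ x in atTop, ∀ k : ι, u k < u i → val u w x k < val u w x i := by
    rw [Filter.eventually_all]
    intro k
    by_cases hk : u k < u i
    · filter_upwards [eventually_gt_atTop ((w i - w k) / (u i - u k))] with x hx _
      have e1 : 0 < u i - u k := by linarith
      rw [div_lt_iff₀ e1] at hx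
      unfold val
      linarith
    · exact Eventually.of_forall (fun x hx => absurd hx hk)
  obtain ⟨x, hx⟩ := hev.exists
  refine ⟨x, ?_⟩
  rw [lev_lt_iff hm]
  refine lt_of_lt_of_le h ?_
  unfold bel
  apply card_le_card
  intro k hk
  simp only [mem_filter, mem_univ, true_and] at hk ⊢
  exact hx k hk

/-- the rank condition at `-∞` -/
lemma above_left {m : ℕ} (hm : m < Fintype.card ι) {i : ι}
    (h : m < (univ.filter (fun k => u i < u k)).card) : ∃ x, lev u w m x < val u w x i := by
  have hev : ∀ᶠ x in atBot, ∀ k : ι, u i < u k → val u w x k < val u w x i := by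
    rw [Filter.eventually_all]
    intro k
    by_cases hk : u i < u k
    · filter_upwards [eventually_lt_atBot ((w k - w i) / (u k - u i))] with x hx _
      have e1 : 0 < u k - u i := by linarith
      rw [lt_div_iff₀ e1] at hx
      unfold val
      linarith
    · exact Eventually.of_forall (fun x hx => absurd hx hk)
  obtain ⟨x, hx⟩ := hev.exists
  refine ⟨x, ?_⟩
  rw [lev_lt_iff hm]
  refine lt_of_lt_of_le h ?_
  unfold bel
  apply card_le_card
  intro k hk
  simp only [mem_filter, mem_univ, true_and] at hk ⊢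
  exact hx k hk

/-- rank of a line -/
noncomputable def rk (u : ι → ℝ) (i : ι) : ℕ := (univ.filter (fun k => u k < u i)).card

lemma rk_lt {i k : ι} (h : u i < u k) : rk u i < rk u k := by
  classical
  unfold rk
  apply card_lt_card
  rw [ssubset_iff_of_subset]
  · exact ⟨i, by simp [h], by simp⟩
  · intro l hl
    simp only [mem_filter, mem_univ, true_and] at hl ⊢
    exact hl.trans h

lemma rk_inj (hu : Function.Injective u) : Function.Injective (rk u) := by
  intro i k h
  rcases lt_trichotomy (u i) (u k) with h1 | h1 | h1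
  · exact absurd h (rk_lt h1).ne
  · exact hu h1
  · exact absurd h (rk_lt h1).ne'

lemma rk_add (hu : Function.Injective u) (i : ι) :
    rk u i + (univ.filter (fun k => u i < u k)).card + 1 = Fintype.card ι := by
  classical
  unfold rk
  have h1 : (univ : Finset ι) = (univ.filter (fun k => u k < u i)) ∪
      ((univ.filter (fun k => u i < u k)) ∪ {i}) := by
    ext k
    simp only [mem_univ, mem_union, mem_filter, true_and, mem_singleton, true_iff]
    rcases lt_trichotomy (u k) (u i) with h | h | h
    · exact Or.inl h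
    · exact Or.inr (Or.inr (hu h))
    · exact Or.inr (Or.inl h)
  have h2 : Disjoint (univ.filter (fun k => u i < u k)) {i} := by
    rw [disjoint_singleton_right]
    simp
  have h3 : Disjoint (univ.filter (fun k => u k < u i))
      ((univ.filter (fun k => u i < u k)) ∪ {i}) := by
    rw [disjoint_left]
    intro k hk hk'
    simp only [mem_filter, mem_univ, true_and, mem_union, mem_singleton] at hk hk'
    rcases hk' with hk' | hk'
    · exact lt_asymm hk hk'
    · rw [hk'] at hk
      exact lt_irrefl _ hk
  rw [← card_univ]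
  conv_rhs => rw [h1]
  rw [card_union_of_disjoint h3, card_union_of_disjoint h2, card_singleton]
  ring

lemma exists_rk (hu : Function.Injective u) {j : ℕ} (hj : j < Fintype.card ι) :
    ∃ i, rk u i = j := by
  classical
  have h1 : Set.SurjOn (rk u) (univ : Finset ι) (range (Fintype.card ι)) := by
    apply surjOn_of_injOn_of_card_le
    · intro i _
      have := rk_add hu i
      simp only [coe_range, Set.mem_Iio]
      omega
    · exact (rk_inj hu).injOn
    · simp
  obtain ⟨i, _, hi⟩ := h1 (by simpa using hj : j ∈ ((range (Fintype.card ι) : Finset ℕ) : Set ℕ))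
  exact ⟨i, hi⟩

/-- the exceptional lines -/
lemma card_exc (hu : Function.Injective u) {m : ℕ}
    (hm2 : 2 * m ≤ Fintype.card ι) :
    (univ.filter (fun i => ¬ (m < rk u i ∨ m < (univ.filter (fun k => u i < u k)).card))).card
      ≤ 2 := by
  classical
  have h1 : (univ.filter (fun i => ¬ (m < rk u i ∨
      m < (univ.filter (fun k => u i < u k)).card))).card ≤
      (Finset.Icc (Fintype.card ι - 1 - m) m).card := by
    apply card_le_card_of_injOn (rk u)
    · intro i hi
      rw [mem_coe, mem_filter, not_or] at hi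
      rw [coe_Icc, Set.mem_Icc]
      have := rk_add hu i
      omega
    · exact (rk_inj hu).injOn
  rw [Nat.card_Icc] at h1
  omega

lemma next_pt (F : Finset ℝ) (y : ℝ) : ∃ x, y < x ∧ ∀ z ∈ F, y < z → x < z := by
  have hev : ∀ᶠ x in 𝓝[>] y, ∀ z ∈ F, y < z → x < z := by
    rw [Filter.eventually_all_finset]
    intro z _
    by_cases hz : y < z
    · exact ((gt_mem_nhds hz).filter_mono nhdsWithin_le_nhds).mono (fun x hx _ => hx)
    · exact Eventually.of_forall (fun x hx => absurd hx hz)
  obtain ⟨x, hx1, hx2⟩ := (hev.and self_mem_nhdsWithin).exists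
  exact ⟨x, hx2, hx1⟩

/-- number of elements of `F` below `x` -/
noncomputable def kap (F : Finset ℝ) (x : ℝ) : ℕ := (F.filter (fun z => z < x)).card

lemma kap_mono (F : Finset ℝ) {x y : ℝ} (h : x ≤ y) : kap F x ≤ kap F y := by
  unfold kap
  apply card_le_card
  intro z hz
  rw [mem_filter] at hz ⊢
  exact ⟨hz.1, hz.2.trans_le h⟩

lemma kap_le (F : Finset ℝ) (x : ℝ) : kap F x ≤ F.card := card_le_card (filter_subset _ _)

lemma kap_eq {F : Finset ℝ} {x y z : ℝ} (h : kap F x = kap F y) (hz : z ∈ F) (h1 : x ≤ z)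
    (h2 : z < y) : False := by
  unfold kap at h
  have hsub : F.filter (fun z => z < x) ⊆ F.filter (fun z => z < y) := by
    intro a ha
    rw [mem_filter] at ha ⊢
    exact ⟨ha.1, ha.2.trans (h1.trans_lt h2)⟩
  have heq := eq_of_subset_of_card_le hsub h.ge
  have : z ∈ F.filter (fun z => z < y) := mem_filter.2 ⟨hz, h2⟩
  rw [← heq, mem_filter] at this
  exact absurd this.2 (not_lt.2 h1)

lemma kap_local {F : Finset ℝ} {x : ℝ} (hx : x ∉ F) :
    ∀ᶠ z in 𝓝 x, z ∉ F ∧ kap F z = kap F x := by
  have hev : ∀ᶠ z in 𝓝 x, ∀ a ∈ F, (a < z ↔ a < x) ∧ z ≠ a := by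
    rw [Filter.eventually_all_finset]
    intro a ha
    rcases lt_trichotomy a x with h | h | h
    · filter_upwards [lt_mem_nhds h] with z hz
      exact ⟨⟨fun _ => h, fun _ => hz⟩, hz.ne'⟩
    · exact absurd (h ▸ ha) hx
    · filter_upwards [gt_mem_nhds h] with z hz
      exact ⟨⟨fun h' => absurd h' (not_lt.2 hz.le), fun h' => absurd h' (not_lt.2 h.le)⟩, hz.ne⟩
  filter_upwards [hev] with z hz
  refine ⟨fun hzF => (hz z hzF).2 rfl, ?_⟩
  unfold kap
  congr 1
  apply filter_congr
  intro a ha
  exact (hz a ha).1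

/-- The pieces inequality. -/
theorem pieces {t j m : ℕ} (H : Unb u w t) (hu : Function.Injective u) (ht : 1 ≤ t)
    (hjm : j ≤ m) (hm : m < Fintype.card ι) (hm2 : 2 * m ≤ Fintype.card ι)
    (hz : Fintype.card ι ≤ 2 * j + t) :
    (DS u w t j).card ≤ ((VS u w m).card + 2) * ((US u w t j).card + 1) := by
  classical
  have hj : j < Fintype.card ι := by omega
  set F := US u w t j with hF
  have hFcr : ∀ z ∈ F, z ∈ crs u w := fun z hz' => (mem_filter.1 hz').1
  have hmaps : ∀ y ∈ DS u w t j, kap F y ∈ range (F.card + 1) := by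
    intro y _
    rw [mem_range, Nat.lt_succ_iff]
    exact kap_le F y
  refine (card_le_mul_card_image_of_maps_to hmaps ((VS u w m).card + 2) ?_).trans
    (by rw [card_range])
  intro k _
  set Y := (DS u w t j).filter (fun y => kap F y = k) with hY
  -- the points to the right and their lines
  have hpt : ∀ y : ℝ, ∃ x, ∃ i : ι, y < x ∧ (∀ z ∈ crs u w, y < z → x < z) ∧
      (∀ᶠ x' in 𝓝 x, lev u w j x' = val u w x' i) := by
    intro y
    obtain ⟨x, hx1, hx2⟩ := next_pt (crs u w) y
    obtain ⟨i, hi⟩ := exists_on_lev' (u := u) (w := w) hj x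
    have hs : ¬ 2 ≤ thr u w x (lev u w j x) := fun h =>
      lt_irrefl _ (hx2 x (mem_crs hu h) hx1)
    exact ⟨x, i, hx1, hx2, (simple_local hj hs hi).mono (fun _ h => h.1)⟩
  choose xs gs h1 h2 h3 using hpt
  have h30 : ∀ y, lev u w j (xs y) = val u w (xs y) (gs y) := fun y => (h3 y).self_of_nhds
  have hYnot : ∀ y ∈ DS u w t j, y ∉ F := by
    intro y hy hyF
    exact not_isU_isD ht ((mem_US hu).1 hyF) ((mem_DS hu).1 hy)
  have hkx : ∀ y ∈ DS u w t j, kap F (xs y) = kap F y := by
    intro y hy
    unfold kap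
    congr 1
    apply filter_congr
    intro z hzF
    constructor
    · intro hzx
      rcases lt_trichotomy z y with h | h | h
      · exact h
      · exact absurd (h ▸ hzF) (hYnot y hy)
      · exact absurd hzx (not_lt.2 (h2 y z (hFcr z hzF) h).le)
    · intro hzy
      exact hzy.trans (h1 y)
  -- fact A
  have hA : ∀ y ∈ DS u w t j, ∀ x, x ∉ F → kap F x = kap F y →
      val u w x (gs y) ≤ lev u w j x := by
    intro y hy x hxF hkap
    apply supp H hj hz (h3 y)
    rintro z hz' hU
    have hzF : z ∈ F := (mem_US hu).2 hU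
    rcases hz' with ⟨g1, g2⟩ | ⟨g1, g2⟩
    · exact kap_eq ((hkx y hy).trans hkap.symm) hzF g1.le g2
    · exact kap_eq (hkap.trans (hkx y hy).symm) hzF g1.le g2
  have hYD : ∀ y ∈ Y, y ∈ DS u w t j := fun y hy => (mem_filter.1 hy).1
  have hYk : ∀ y ∈ Y, kap F y = k := fun y hy => (mem_filter.1 hy).2
  have hYcr : ∀ y ∈ Y, y ∈ crs u w := fun y hy => (mem_filter.1 (hYD y hy)).1
  -- fact B
  have hB : ∀ y ∈ Y, ∀ y' ∈ Y, y < y' → gs y ≠ gs y' := by
    intro y hy y' hy' hlt heq
    have hxy : xs y < y' := h2 y y' (hYcr y' hy') hlt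
    have hyx : y' < xs y' := h1 y'
    have hkk : kap F (xs y) = kap F (xs y') := by
      rw [hkx y (hYD y hy), hkx y' (hYD y' hy'), hYk y hy, hYk y' hy']
    have hseg : ∀ z ∈ Set.Ioo (xs y) (xs y'), lev u w j z = val u w z (gs y) := by
      intro z hzI
      have hzF : z ∉ F := fun hzF => kap_eq hkk hzF hzI.1.le hzI.2
      have hkz : kap F z = kap F y := by
        have g1 := kap_mono F hzI.1.le
        have g2 := kap_mono F hzI.2.le
        have g3 := hkx y (hYD y hy)
        omega
      have hge := hA y (hYD y hy) z hzF hkz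
      by_contra hne
      have hgt : val u w z (gs y) < lev u w j z := lt_of_le_of_ne hge (fun h => hne h.symm)
      have e2 : lev u w j (xs y') = val u w (xs y') (gs y) := by rw [h30 y', heq]
      obtain ⟨a, ha, hU⟩ := conc H hj (by omega) hzI.1 hzI.2 (by
        have f1 : 0 < z - xs y := by linarith [hzI.1]
        have f3 : 0 < xs y' - z := by linarith [hzI.2]
        have f4 : lev u w j (xs y') - lev u w j z < (xs y' - z) * u (gs y) := by
          rw [e2]; unfold val at hgt ⊢; linarith
        have f5 : (z - xs y) * u (gs y) < lev u w j z - lev u w j (xs y) := by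
          rw [h30 y]; unfold val at hgt ⊢; linarith
        calc _ < (xs y' - z) * u (gs y) * (z - xs y) := mul_lt_mul_of_pos_right f4 f1
          _ = (z - xs y) * u (gs y) * (xs y' - z) := by ring
          _ < _ := mul_lt_mul_of_pos_right f5 f3)
      exact kap_eq hkk ((mem_US hu).2 hU) ha.1.le ha.2
    have hloc : ∀ᶠ x in 𝓝 y', lev u w j x - u (gs y) * x ≤ lev u w j y' - u (gs y) * y' := by
      filter_upwards [Ioo_mem_nhds hxy hyx] with x hx
      rw [hseg x hx, hseg y' ⟨hxy, hyx⟩]
      unfold val
      linarith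
    have hsum := local_max_sum hj _ _ hloc
    have hone : (univ.filter (fun i => val u w y' i = lev u w j y' ∧ u i = u (gs y))).card ≤ 1 := by
      rw [card_le_one]
      intro a ha b hb
      simp only [mem_filter, mem_univ, true_and] at ha hb
      exact hu (ha.2.trans hb.2.symm)
    have hD := ((mem_DS hu).1 (hYD y' hy')).2
    omega
  -- the two classes
  set P : ℝ → Prop := fun y => m < rk u (gs y) ∨
    m < (univ.filter (fun k => u (gs y) < u k)).card with hP
  have hsplit := card_filter_add_card_filter_not (s := Y) P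
  have hexc : (Y.filter (fun y => ¬ P y)).card ≤ 2 := by
    refine le_trans ?_ (card_exc hu hm2)
    apply card_le_card_of_injOn gs
    · intro y hy
      rw [mem_coe, mem_filter] at hy
      rw [mem_coe, mem_filter]
      exact ⟨mem_univ _, hy.2⟩
    · intro y hy y' hy' heq
      rw [mem_coe, mem_filter] at hy hy'
      rcases lt_trichotomy y y' with h | h | h
      · exact absurd heq (hB y hy.1 y' hy'.1 h)
      · exact h
      · exact absurd heq.symm (hB y' hy'.1 y hy.1 h)
  have hcr : ∀ y, ∃ x, (y ∈ Y → P y → val u w x (gs y) = lev u w m x ∧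
      2 ≤ thr u w x (lev u w m x) ∧ ¬ (x ∉ F ∧ kap F x = k)) := by
    intro y
    by_cases hy : y ∈ Y ∧ P y
    · obtain ⟨hy, hPy⟩ := hy
      have g0 : val u w (xs y) (gs y) ≤ lev u w m (xs y) := by
        rw [← h30 y]
        exact lev_mono hjm hm _
      obtain ⟨x1, hx1⟩ : ∃ x, lev u w m x < val u w x (gs y) := by
        rcases hPy with h | h
        · exact above_right hm h
        · exact above_left hm h
      obtain ⟨x, e1, e2, e3⟩ := cross hm g0 hx1
      refine ⟨x, fun _ _ => ⟨e1, e3, ?_⟩⟩
      rintro ⟨hxF, hxk⟩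
      obtain ⟨z, hz1, hz2, hz3⟩ := (e2.and_eventually (kap_local hxF)).exists
      have := hA y (hYD y hy) z hz2 (by rw [hz3, hxk, hYk y hy])
      exact absurd (hz1.trans_le this) (not_lt.2 (lev_mono hjm hm z))
    · exact ⟨0, fun a b => absurd ⟨a, b⟩ hy⟩
  choose xc hxc using hcr
  have hinjaux : ∀ y ∈ Y, ∀ y' ∈ Y, P y → P y' → y < y' → xc y ≠ xc y' := by
    intro y hy y' hy' hPy hPy' hlt heq
    obtain ⟨a1, a2, a3⟩ := hxc y hy hPy
    obtain ⟨b1, b2, b3⟩ := hxc y' hy' hPy'
    rw [← heq] at b1
    have hkk : kap F (xs y) = kap F (xs y') := by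
      rw [hkx y (hYD y hy), hkx y' (hYD y' hy'), hYk y hy, hYk y' hy']
    have hxy : xs y < xs y' := (h2 y y' (hYcr y' hy') hlt).trans (h1 y')
    have hxsF : ∀ z ∈ Y, xs z ∉ F := by
      intro z hz' hzF
      exact lt_irrefl _ (h2 z (xs z) (hFcr _ hzF) (h1 z))
    have c1 : val u w (xs y) (gs y') ≤ val u w (xs y) (gs y) := by
      rw [← h30 y]
      exact hA y' (hYD y' hy') _ (hxsF y hy) (by
        rw [hkx y (hYD y hy), hYk y hy, hYk y' hy'])
    have c2 : val u w (xs y') (gs y) ≤ val u w (xs y') (gs y') := by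
      rw [← h30 y']
      exact hA y (hYD y hy) _ (hxsF y' hy') (by
        rw [hkx y' (hYD y' hy'), hYk y hy, hYk y' hy'])
    have hne : u (gs y) ≠ u (gs y') := fun h => hB y hy y' hy' hlt (hu h)
    have d0 : val u w (xc y) (gs y) = val u w (xc y) (gs y') := by rw [a1, b1]
    unfold val at c1 c2 d0
    have e1 : 0 ≤ (xs y - xc y) * (u (gs y) - u (gs y')) := by linarith
    have e2 : (xs y' - xc y) * (u (gs y) - u (gs y')) ≤ 0 := by linarith
    have hlt' : u (gs y) < u (gs y') := by
      rcases lt_or_gt_of_ne hne with h | h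
      · exact h
      · exfalso
        have : 0 < (xs y' - xs y) * (u (gs y) - u (gs y')) :=
          mul_pos (by linarith) (by linarith)
        linarith
    have i1 : xs y ≤ xc y := by
      by_contra hcon
      push Not at hcon
      have : (xs y - xc y) * (u (gs y) - u (gs y')) < 0 :=
        mul_neg_of_pos_of_neg (by linarith) (by linarith)
      linarith
    have i2 : xc y ≤ xs y' := by
      by_contra hcon
      push Not at hcon
      have : 0 < (xs y' - xc y) * (u (gs y) - u (gs y')) :=
        mul_pos_of_neg_of_neg (by linarith) (by linarith)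
      linarith
    apply a3
    refine ⟨?_, ?_⟩
    · intro hF'
      rcases i2.lt_or_eq with h | h
      · exact kap_eq hkk hF' i1 h
      · rw [h] at hF'
        exact hxsF y' hy' hF'
    · have g1 := kap_mono F i1
      have g2 := kap_mono F i2
      have g3 := hkx y (hYD y hy)
      have g4 := hYk y hy
      omega
  have hnon : (Y.filter P).card ≤ (VS u w m).card := by
    apply card_le_card_of_injOn xc
    · intro y hy
      rw [mem_coe, mem_filter] at hy
      rw [mem_coe, mem_VS hu]
      exact (hxc y hy.1 hy.2).2.1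
    · intro y hy y' hy' heq
      rw [mem_coe, mem_filter] at hy hy'
      rcases lt_trichotomy y y' with h | h | h
      · exact absurd heq (hinjaux y hy.1 y' hy'.1 hy.2 hy'.2 h)
      · exact h
      · exact absurd heq.symm (hinjaux y' hy'.1 y hy.1 hy'.2 hy.2 h)
  omega

end MP_6c69fd_co
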