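import Pool.Agent.Lib.MP_6c69fd_co_h13.Count

/-!
# MP_6c69fd_co: touching zeros of a continuous function

Helper file.
-/

namespace MP_6c69fd_co

open Finset Filter Topology

/-- `g` vanishes at `x` and has one strict sign near `x` on both sides -/
def Tch (g : ℝ → ℝ) (x : ℝ) : Prop :=
  g x = 0 ∧ ∃ δ > 0, (∀ z, z ≠ x → |z - x| < δ → 0 < g z) ∨ (∀ z, z ≠ x → |z - x| < δ → g z < 0)

/-- `g` changes its sign at `Q` only, and vanishes elsewhere -/
def Ext (g : ℝ → ℝ) (Q : ℝ) : Prop :=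
  g Q = 0 ∧ (∃ x, x ≠ Q ∧ g x = 0) ∧ ((∀ x, 0 ≤ g x * (x - Q)) ∨ (∀ x, g x * (x - Q) ≤ 0))

/-- a zero of `g` in `F` where `g` does not touch `0` -/
def NTch (F : Finset ℝ) (g : ℝ → ℝ) (q : ℝ) : Prop := q ∈ F ∧ g q = 0 ∧ ¬ Tch g q

/-- the alternative -/
def Dich (F : Finset ℝ) (g : ℝ → ℝ) : Prop :=
  (∃ Q, NTch F g Q ∧ Ext g Q) ∨
    (∃ q1 q2 q3, q1 < q2 ∧ q2 < q3 ∧ NTch F g q1 ∧ NTch F g q2 ∧ NTch F g q3)

/-- outside `F` zeros are not isolated -/
def Loc (F : Finset ℝ) (g : ℝ → ℝ) : Prop := ∀ x, x ∉ F → g x = 0 → ∀ᶠ z in 𝓝 x, g z = 0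

lemma tch_neg {g : ℝ → ℝ} {x : ℝ} (h : Tch (fun z => -g z) x) : Tch g x := by
  obtain ⟨h1, δ, hδ, h2⟩ := h
  refine ⟨by simpa using h1, δ, hδ, ?_⟩
  rcases h2 with h2 | h2
  · exact Or.inr (fun z hz hz' => by have := h2 z hz hz'; linarith)
  · exact Or.inl (fun z hz hz' => by have := h2 z hz hz'; linarith)

lemma tch_neg' {g : ℝ → ℝ} {x : ℝ} (h : Tch g x) : Tch (fun z => -g z) x := by
  apply tch_neg
  simpa using h

lemma tch_refl {g : ℝ → ℝ} {x : ℝ} (h : Tch (fun z => g (-z)) x) : Tch g (-x) := by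
  obtain ⟨h1, δ, hδ, h2⟩ := h
  refine ⟨h1, δ, hδ, ?_⟩
  have key : ∀ z, z ≠ -x → |z - -x| < δ → -z ≠ x ∧ |-z - x| < δ := by
    intro z hz hz'
    refine ⟨fun h => hz (by rw [← h, neg_neg]), ?_⟩
    rw [show -z - x = -(z - -x) by ring, abs_neg]
    exact hz'
  rcases h2 with h2 | h2
  · left
    intro z hz hz'
    have := h2 (-z) (key z hz hz').1 (key z hz hz').2
    simpa using this
  · right
    intro z hz hz'
    have := h2 (-z) (key z hz hz').1 (key z hz hz').2
    simpa using this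

lemma tch_refl' {g : ℝ → ℝ} {x : ℝ} (h : Tch g (-x)) : Tch (fun z => g (-z)) x := by
  have h1 : Tch (fun z => (fun y => g (-y)) (-z)) (-x) := by simpa using h
  have h2 := tch_refl (g := fun y => g (-y)) h1
  rwa [neg_neg] at h2

lemma ntch_neg {F : Finset ℝ} {g : ℝ → ℝ} {q : ℝ} (h : NTch F (fun z => -g z) q) : NTch F g q :=
  ⟨h.1, by simpa using h.2.1, fun hh => h.2.2 (tch_neg' hh)⟩

lemma ntch_refl {F : Finset ℝ} {g : ℝ → ℝ} {q : ℝ}
    (h : NTch (F.image (fun x => -x)) (fun z => g (-z)) q) : NTch F g (-q) := by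
  obtain ⟨h1, h2, h3⟩ := h
  rw [mem_image] at h1
  obtain ⟨y, hy, rfl⟩ := h1
  refine ⟨by rwa [neg_neg], h2, fun hh => h3 (tch_refl' hh)⟩

lemma dich_neg {F : Finset ℝ} {g : ℝ → ℝ} (h : Dich F (fun z => -g z)) : Dich F g := by
  rcases h with ⟨Q, h1, h2, ⟨x, hx, hx'⟩, h3⟩ | ⟨q1, q2, q3, h1, h2, h3, h4, h5⟩
  · left
    refine ⟨Q, ntch_neg h1, by simpa using h2, ⟨x, hx, by simpa using hx'⟩, ?_⟩
    rcases h3 with h3 | h3
    · exact Or.inr (fun x => by have := h3 x; linarith)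
    · exact Or.inl (fun x => by have := h3 x; linarith)
  · right
    exact ⟨q1, q2, q3, h1, h2, ntch_neg h3, ntch_neg h4, ntch_neg h5⟩

lemma dich_refl {F : Finset ℝ} {g : ℝ → ℝ}
    (h : Dich (F.image (fun x => -x)) (fun z => g (-z))) : Dich F g := by
  rcases h with ⟨Q, h1, h2, ⟨x, hx, hx'⟩, h3⟩ | ⟨q1, q2, q3, h1, h2, h3, h4, h5⟩
  · left
    refine ⟨-Q, ntch_refl h1, h2, ⟨-x, fun h => hx (neg_injective h), hx'⟩, ?_⟩
    rcases h3 with h3 | h3
    · right
      intro x
      have h4 := h3 (-x)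
      simp only [neg_neg] at h4
      linarith
    · left
      intro x
      have h4 := h3 (-x)
      simp only [neg_neg] at h4
      linarith
  · right
    exact ⟨-q3, -q2, -q1, by linarith, by linarith, ntch_refl h5, ntch_refl h4, ntch_refl h3⟩

lemma loc_neg {F : Finset ℝ} {g : ℝ → ℝ} (h : Loc F g) : Loc F (fun z => -g z) := by
  intro x hx hx'
  have h1 : g x = 0 := by simpa using hx'
  filter_upwards [h x hx h1] with z hz
  rw [hz, neg_zero]

lemma loc_refl {F : Finset ℝ} {g : ℝ → ℝ} (h : Loc F g) :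
    Loc (F.image (fun x => -x)) (fun z => g (-z)) := by
  intro x hx hx'
  have h1 : -x ∉ F := by
    intro h2
    exact hx (mem_image.2 ⟨-x, h2, neg_neg x⟩)
  have h2 := h (-x) h1 hx'
  have h3 : Tendsto (fun z : ℝ => -z) (𝓝 x) (𝓝 (-x)) := (continuous_neg.tendsto x)
  exact h3.eventually h2

/-- a sign change from `+` to `-` -/
lemma cross_pn {F : Finset ℝ} {g : ℝ → ℝ} (hg : Continuous g) (hF : Loc F g) {a b : ℝ}
    (hab : a < b) (ha : 0 < g a) (hb : g b < 0) : ∃ q, a < q ∧ q < b ∧ NTch F g q := by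
  set S : Set ℝ := {x | a ≤ x ∧ g x < 0} with hS
  have hbS : b ∈ S := ⟨hab.le, hb⟩
  have hbdd : BddBelow S := ⟨a, fun x hx => hx.1⟩
  set q := sInf S with hq
  have haq : a ≤ q := le_csInf ⟨b, hbS⟩ (fun x hx => hx.1)
  have hqb : q ≤ b := csInf_le hbdd hbS
  have hpos : ∀ x, a ≤ x → x < q → 0 ≤ g x := by
    intro x hx1 hx2
    by_contra hcon
    push Not at hcon
    exact absurd (csInf_le hbdd (show x ∈ S from ⟨hx1, hcon⟩)) (not_le.2 hx2)
  have hle : g q ≤ 0 := by
    have h1 : q ∈ closure S := csInf_mem_closure ⟨b, hbS⟩ hbdd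
    have h2 : IsClosed {x | g x ≤ 0} := isClosed_le hg continuous_const
    have h3 : closure S ⊆ {x | g x ≤ 0} := closure_minimal (fun x hx => hx.2.le) h2
    exact h3 h1
  have haq' : a < q := by
    refine lt_of_le_of_ne haq (fun h => ?_)
    rw [← h] at hle
    linarith
  have hge : 0 ≤ g q := by
    have h2 : IsClosed {x | 0 ≤ g x} := isClosed_le continuous_const hg
    have h3 : closure (Set.Ioo a q) ⊆ {x | 0 ≤ g x} :=
      closure_minimal (fun x hx => hpos x hx.1.le hx.2) h2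
    rw [closure_Ioo haq'.ne] at h3
    exact h3 ⟨haq'.le, le_refl _⟩
  have h0 : g q = 0 := le_antisymm hle hge
  have hqb' : q < b := by
    refine lt_of_le_of_ne hqb (fun h => ?_)
    rw [h] at h0
    linarith
  have hneg : ∀ δ > 0, ∃ z, z ≠ q ∧ |z - q| < δ ∧ g z < 0 := by
    intro δ hδ
    obtain ⟨z, hz, hz'⟩ := exists_lt_of_csInf_lt ⟨b, hbS⟩ (show sInf S < q + δ by linarith)
    have h1 : q ≤ z := csInf_le hbdd hz
    refine ⟨z, ?_, ?_, hz.2⟩
    · rintro rfl
      have := hz.2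
      linarith
    · rw [abs_lt]
      constructor <;> linarith
  refine ⟨q, haq', hqb', ?_, h0, ?_⟩
  · by_contra hcon
    obtain ⟨δ, hδ, h1⟩ := Metric.eventually_nhds_iff.1 (hF q hcon h0)
    obtain ⟨z, -, hz1, hz2⟩ := hneg δ hδ
    have := h1 (show dist z q < δ by rw [Real.dist_eq]; exact hz1)
    linarith
  · rintro ⟨-, δ, hδ, h1 | h1⟩
    · obtain ⟨z, hz0, hz1, hz2⟩ := hneg δ hδ
      have := h1 z hz0 hz1
      linarith
    · have h2 : max a (q - δ / 2) < q := max_lt haq' (by linarith)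
      have h3 := h1 (max a (q - δ / 2)) h2.ne (by
        rw [abs_lt]
        constructor
        · have := le_max_right a (q - δ / 2)
          linarith
        · linarith)
      have h4 := hpos _ (le_max_left _ _) h2
      linarith

/-- a sign change -/
lemma cross_ne {F : Finset ℝ} {g : ℝ → ℝ} (hg : Continuous g) (hF : Loc F g) {a b : ℝ}
    (hab : a < b) (h : (0 < g a ∧ g b < 0) ∨ (g a < 0 ∧ 0 < g b)) :
    ∃ q, a < q ∧ q < b ∧ NTch F g q := by
  rcases h with ⟨h1, h2⟩ | ⟨h1, h2⟩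
  · exact cross_pn hg hF hab h1 h2
  · obtain ⟨q, h3, h4, h5⟩ := cross_pn (F := F) (g := fun z => -g z) hg.neg (loc_neg hF) hab
      (by linarith) (by linarith)
    exact ⟨q, h3, h4, ntch_neg h5⟩

/-- `g` negative at `-∞` and positive at `+∞` and near `x0` -/
lemma dich_main {F : Finset ℝ} {g : ℝ → ℝ} (hg : Continuous g) (hF : Loc F g)
    (hbot : ∀ᶠ x in atBot, g x < 0) (htop : ∀ᶠ x in atTop, 0 < g x) {x0 δ : ℝ}
    (h0 : g x0 = 0) (hδ : 0 < δ) (hp : ∀ z, z ≠ x0 → |z - x0| < δ → 0 < g z) : Dich F g := by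
  have hpl : 0 < g (x0 - δ / 2) := hp _ (by linarith) (by
    rw [abs_lt]; constructor <;> linarith)
  have hpr : 0 < g (x0 + δ / 2) := hp _ (by linarith) (by
    rw [abs_lt]; constructor <;> linarith)
  have hout : ∀ z, g z < 0 → z < x0 - δ / 2 ∨ x0 + δ / 2 < z := by
    intro z hz
    by_contra hcon
    push Not at hcon
    by_cases hz0 : z = x0
    · rw [hz0, h0] at hz
      exact lt_irrefl _ hz
    · have := hp z hz0 (by rw [abs_lt]; constructor <;> linarith)
      linarith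
  by_cases h1 : ∃ x', x0 < x' ∧ g x' < 0
  · obtain ⟨x', hx1, hx2⟩ := h1
    obtain ⟨a0, ha1, ha2⟩ := (hbot.and (eventually_lt_atBot (x0 - δ / 2))).exists
    obtain ⟨b0, hb1, hb2⟩ := (htop.and (eventually_gt_atTop x')).exists
    have hx3 : x0 + δ / 2 < x' := by
      rcases hout x' hx2 with h | h
      · linarith
      · exact h
    obtain ⟨q1, e1, e2, n1⟩ := cross_ne hg hF ha2 (Or.inr ⟨ha1, hpl⟩)
    obtain ⟨q2, e3, e4, n2⟩ := cross_ne hg hF hx3 (Or.inl ⟨hpr, hx2⟩)
    obtain ⟨q3, e5, e6, n3⟩ := cross_ne hg hF hb2 (Or.inr ⟨hx2, hb1⟩)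
    right
    exact ⟨q1, q2, q3, by linarith, by linarith, n1, n2, n3⟩
  push Not at h1
  by_cases h2 : ∃ x1 x2, x1 < x2 ∧ x2 < x0 ∧ 0 < g x1 ∧ g x2 < 0
  · obtain ⟨x1, x2, h12, h20, g1, g2⟩ := h2
    obtain ⟨a0, ha1, ha2⟩ := (hbot.and (eventually_lt_atBot x1)).exists
    have hx3 : x2 < x0 - δ / 2 := by
      rcases hout x2 g2 with h | h
      · exact h
      · linarith
    obtain ⟨q1, e1, e2, n1⟩ := cross_ne hg hF ha2 (Or.inr ⟨ha1, g1⟩)
    obtain ⟨q2, e3, e4, n2⟩ := cross_ne hg hF h12 (Or.inl ⟨g1, g2⟩)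
    obtain ⟨q3, e5, e6, n3⟩ := cross_ne hg hF hx3 (Or.inr ⟨g2, hpl⟩)
    right
    exact ⟨q1, q2, q3, by linarith, by linarith, n1, n2, n3⟩
  push Not at h2
  set S : Set ℝ := {x | g x < 0} with hS
  have hne : S.Nonempty := hbot.exists
  have hx0S : ∀ x ∈ S, x < x0 := by
    intro x hx
    have hx' : g x < 0 := hx
    rcases lt_trichotomy x x0 with h | h | h
    · exact h
    · rw [h, h0] at hx'
      exact absurd hx' (lt_irrefl _)
    · have := h1 x h
      linarith
  have hbdd : BddAbove S := ⟨x0, fun x hx => (hx0S x hx).le⟩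
  set Q := sSup S with hQ
  have hright : ∀ x, Q < x → 0 ≤ g x := by
    intro x hx
    by_contra hcon
    push Not at hcon
    exact absurd (le_csSup hbdd (show x ∈ S from hcon)) (not_le.2 hx)
  have hleft : ∀ x, x < Q → g x ≤ 0 := by
    intro x hx
    by_contra hcon
    push Not at hcon
    obtain ⟨z, hz, hz'⟩ := exists_lt_of_lt_csSup hne hx
    have := h2 x z hz' (hx0S z hz) hcon
    have hz2 : g z < 0 := hz
    linarith
  have hle : g Q ≤ 0 := by
    have e1 : Q ∈ closure S := csSup_mem_closure hne hbdd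
    have e2 : IsClosed {x | g x ≤ 0} := isClosed_le hg continuous_const
    have e3 : closure S ⊆ {x | g x ≤ 0} := closure_minimal (fun x (hx : g x < 0) => hx.le) e2
    exact e3 e1
  have hge : 0 ≤ g Q := by
    have e2 : IsClosed {x | 0 ≤ g x} := isClosed_le continuous_const hg
    have e3 : closure (Set.Ioi Q) ⊆ {x | 0 ≤ g x} := closure_minimal (fun x hx => hright x hx) e2
    rw [closure_Ioi] at e3
    exact e3 (le_refl Q)
  have hQ0 : g Q = 0 := le_antisymm hle hge
  have hneg : ∀ η > 0, ∃ z, z ≠ Q ∧ |z - Q| < η ∧ g z < 0 := by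
    intro η hη
    obtain ⟨z, hz, hz'⟩ := exists_lt_of_lt_csSup hne (show Q - η < sSup S by linarith)
    have hz2 : g z < 0 := hz
    have e1 : z ≤ Q := le_csSup hbdd hz
    refine ⟨z, ?_, ?_, hz2⟩
    · rintro rfl
      linarith
    · rw [abs_lt]
      constructor <;> linarith
  have hx0Q : x0 ≠ Q := by
    rintro rfl
    obtain ⟨z, hz0, hz1, hz2⟩ := hneg δ hδ
    have := hp z hz0 hz1
    linarith
  left
  refine ⟨Q, ⟨?_, hQ0, ?_⟩, hQ0, ⟨x0, hx0Q, h0⟩, Or.inl ?_⟩
  · by_contra hcon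
    obtain ⟨η, hη, e1⟩ := Metric.eventually_nhds_iff.1 (hF Q hcon hQ0)
    obtain ⟨z, -, hz1, hz2⟩ := hneg η hη
    have := e1 (show dist z Q < η by rw [Real.dist_eq]; exact hz1)
    linarith
  · rintro ⟨-, η, hη, e1 | e1⟩
    · obtain ⟨z, hz0, hz1, hz2⟩ := hneg η hη
      have := e1 z hz0 hz1
      linarith
    · have e2 := e1 (Q + η / 2) (by linarith) (by rw [abs_lt]; constructor <;> linarith)
      have e3 := hright (Q + η / 2) (by linarith)
      linarith
  · intro x
    rcases lt_trichotomy x Q with h | h | h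
    · exact mul_nonneg_of_nonpos_of_nonpos (hleft x h) (by linarith)
    · rw [h, sub_self, mul_zero]
    · exact mul_nonneg (hright x h) (by linarith)

/-- the end of the zero set at `-∞` -/
lemma left_end {F : Finset ℝ} {g : ℝ → ℝ} (hg : Continuous g) (hF : Loc F g)
    (hbot : ∀ᶠ x in atBot, g x = 0) {a : ℝ} (ha : g a ≠ 0) :
    ∃ q, q < a ∧ NTch F g q ∧ ∀ x ≤ q, g x = 0 := by
  set S : Set ℝ := {x | ∀ y ≤ x, g y = 0} with hS
  have hne : S.Nonempty := by
    obtain ⟨M, hM⟩ := eventually_atBot.1 hbot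
    exact ⟨M, fun y hy => hM y hy⟩
  have hlt : ∀ x ∈ S, x < a := by
    intro x hx
    by_contra hcon
    push Not at hcon
    exact ha (hx a hcon)
  have hbdd : BddAbove S := ⟨a, fun x hx => (hlt x hx).le⟩
  set q := sSup S with hq
  have hz : ∀ y, y < q → g y = 0 := by
    intro y hy
    obtain ⟨z, hz1, hz2⟩ := exists_lt_of_lt_csSup hne hy
    exact hz1 y hz2.le
  have h0 : g q = 0 := by
    have e2 : IsClosed {x | g x = 0} := isClosed_eq hg continuous_const
    have e3 : closure (Set.Iio q) ⊆ {x | g x = 0} := closure_minimal (fun x hx => hz x hx) e2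
    rw [closure_Iio] at e3
    exact e3 (le_refl q)
  have hz' : ∀ y ≤ q, g y = 0 := by
    intro y hy
    rcases hy.lt_or_eq with h | h
    · exact hz y h
    · rw [h, h0]
  have hqa : q < a := by
    refine lt_of_le_of_ne (csSup_le hne (fun x hx => (hlt x hx).le)) (fun h => ?_)
    rw [h] at h0
    exact ha h0
  have hnz : ∀ η > 0, ∃ z, z ≠ q ∧ |z - q| < η ∧ g z ≠ 0 := by
    intro η hη
    by_contra hcon
    push Not at hcon
    have e1 : q + η / 2 ∈ S := by
      intro y hy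
      by_cases hyq : y ≤ q
      · exact hz' y hyq
      · push Not at hyq
        exact hcon y hyq.ne' (by rw [abs_lt]; constructor <;> linarith)
    have := le_csSup hbdd e1
    linarith
  refine ⟨q, hqa, ⟨?_, h0, ?_⟩, hz'⟩
  · by_contra hcon
    obtain ⟨η, hη, e1⟩ := Metric.eventually_nhds_iff.1 (hF q hcon h0)
    obtain ⟨z, -, hz1, hz2⟩ := hnz η hη
    exact hz2 (e1 (show dist z q < η by rw [Real.dist_eq]; exact hz1))
  · rintro ⟨-, η, hη, e1 | e1⟩
    · have e2 := e1 (q - η / 2) (by linarith) (by rw [abs_lt]; constructor <;> linarith)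
      have e3 := hz (q - η / 2) (by linarith)
      linarith
    · have e2 := e1 (q - η / 2) (by linarith) (by rw [abs_lt]; constructor <;> linarith)
      have e3 := hz (q - η / 2) (by linarith)
      linarith

lemma right_end {F : Finset ℝ} {g : ℝ → ℝ} (hg : Continuous g) (hF : Loc F g)
    (htop : ∀ᶠ x in atTop, g x = 0) {a : ℝ} (ha : g a ≠ 0) :
    ∃ q, a < q ∧ NTch F g q := by
  obtain ⟨q, h1, h2, -⟩ := left_end (F := F.image (fun x => -x)) (g := fun z => g (-z))
    (hg.comp continuous_neg) (loc_refl hF) (tendsto_neg_atBot_atTop.eventually htop)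
    (a := -a) (by rwa [neg_neg])
  exact ⟨-q, by linarith, ntch_refl h2⟩

/-- `g` zero at both ends and positive near `x0` -/
lemma dich_zero {F : Finset ℝ} {g : ℝ → ℝ} (hg : Continuous g) (hF : Loc F g)
    (hbot : ∀ᶠ x in atBot, g x = 0) (htop : ∀ᶠ x in atTop, g x = 0) {x0 δ : ℝ}
    (h0 : g x0 = 0) (hδ : 0 < δ) (hp : ∀ z, z ≠ x0 → |z - x0| < δ → 0 < g z) : Dich F g := by
  have hpl : 0 < g (x0 - δ / 2) := hp _ (by linarith) (by
    rw [abs_lt]; constructor <;> linarith)
  have hpr : 0 < g (x0 + δ / 2) := hp _ (by linarith) (by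
    rw [abs_lt]; constructor <;> linarith)
  by_cases h1 : ∃ x', g x' < 0
  · obtain ⟨x', hx'⟩ := h1
    right
    have hout : x' < x0 - δ / 2 ∨ x0 + δ / 2 < x' := by
      by_contra hcon
      push Not at hcon
      by_cases hz0 : x' = x0
      · rw [hz0, h0] at hx'
        exact lt_irrefl _ hx'
      · have := hp x' hz0 (by rw [abs_lt]; constructor <;> linarith)
        linarith
    rcases hout with h | h
    · obtain ⟨q1, e1, n1, -⟩ := left_end hg hF hbot hx'.ne
      obtain ⟨q2, e2, e3, n2⟩ := cross_ne hg hF h (Or.inr ⟨hx', hpl⟩)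
      obtain ⟨q3, e4, n3⟩ := right_end hg hF htop hpr.ne'
      exact ⟨q1, q2, q3, by linarith, by linarith, n1, n2, n3⟩
    · obtain ⟨q1, e1, n1, -⟩ := left_end hg hF hbot hpl.ne'
      obtain ⟨q2, e2, e3, n2⟩ := cross_ne hg hF h (Or.inl ⟨hpr, hx'⟩)
      obtain ⟨q3, e4, n3⟩ := right_end hg hF htop hx'.ne
      exact ⟨q1, q2, q3, by linarith, by linarith, n1, n2, n3⟩
  · push Not at h1
    left
    obtain ⟨q, e1, n1, e2⟩ := left_end hg hF hbot hpl.ne'
    refine ⟨q, n1, n1.2.1, ⟨x0, by linarith, h0⟩, Or.inl (fun x => ?_)⟩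
    by_cases hx : x ≤ q
    · rw [e2 x hx, zero_mul]
    · push Not at hx
      exact mul_nonneg (h1 x) (by linarith)

/-- the alternative for a function with a touching zero -/
theorem dich_all {F : Finset ℝ} {g : ℝ → ℝ} (hg : Continuous g) (hF : Loc F g)
    (hinf : ((∀ᶠ x in atBot, g x < 0) ∧ (∀ᶠ x in atTop, 0 < g x)) ∨
      ((∀ᶠ x in atBot, 0 < g x) ∧ (∀ᶠ x in atTop, g x < 0)) ∨
      ((∀ᶠ x in atBot, g x = 0) ∧ (∀ᶠ x in atTop, g x = 0)))
    {x0 : ℝ} (h : Tch g x0) : Dich F g := by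
  obtain ⟨h0, δ, hδ, hp | hp⟩ := h
  · rcases hinf with ⟨hb, ht⟩ | ⟨hb, ht⟩ | ⟨hb, ht⟩
    · exact dich_main hg hF hb ht h0 hδ hp
    · apply dich_refl
      refine dich_main (x0 := -x0) (δ := δ) (hg.comp continuous_neg) (loc_refl hF)
        (tendsto_neg_atBot_atTop.eventually ht) (tendsto_neg_atTop_atBot.eventually hb)
        (by simpa using h0) hδ ?_
      intro z hz hz'
      apply hp
      · intro h
        exact hz (by rw [← h, neg_neg])
      · rw [show -z - x0 = -(z - -x0) by ring, abs_neg]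
        exact hz'
    · exact dich_zero hg hF hb ht h0 hδ hp
  · rcases hinf with ⟨hb, ht⟩ | ⟨hb, ht⟩ | ⟨hb, ht⟩
    · apply dich_refl
      apply dich_neg
      refine dich_main (x0 := -x0) (δ := δ) (hg.comp continuous_neg).neg
        (loc_neg (loc_refl hF)) ?_ ?_ (by simpa using h0) hδ ?_
      · filter_upwards [tendsto_neg_atBot_atTop.eventually ht] with z hz
        linarith
      · filter_upwards [tendsto_neg_atTop_atBot.eventually hb] with z hz
        linarith
      · intro z hz hz'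
        have := hp (-z) (fun h => hz (by rw [← h, neg_neg])) (by
          rw [show -z - x0 = -(z - -x0) by ring, abs_neg]
          exact hz')
        linarith
    · apply dich_neg
      refine dich_main (x0 := x0) (δ := δ) hg.neg (loc_neg hF) ?_ ?_ (by simpa using h0) hδ ?_
      · filter_upwards [hb] with z hz
        linarith
      · filter_upwards [ht] with z hz
        linarith
      · intro z hz hz'
        have := hp z hz hz'
        linarith
    · apply dich_neg
      refine dich_zero (x0 := x0) (δ := δ) hg.neg (loc_neg hF) ?_ ?_ (by simpa using h0) hδ ?_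
      · filter_upwards [hb] with z hz
        rw [hz, neg_zero]
      · filter_upwards [ht] with z hz
        rw [hz, neg_zero]
      · intro z hz hz'
        have := hp z hz hz'
        linarith

end MP_6c69fd_co
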