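import Pool.Agent.Lib.MP_6c69fd_co_h13.Level

/-!
# MP_6c69fd_co: the middle zone of an unbalanced arrangement

Helper file.
-/

namespace MP_6c69fd_co

open Finset Filter Topology

variable {ι : Type} [Fintype ι] (u w : ι → ℝ)

/-- upper vertex on the level `j` -/
def IsU (t j : ℕ) (x : ℝ) : Prop :=
  2 ≤ thr u w x (lev u w j x) ∧
    Fintype.card ι + t ≤ 2 * bel u w x (lev u w j x) + thr u w x (lev u w j x)

/-- lower vertex on the level `j` -/
def IsD (t j : ℕ) (x : ℝ) : Prop :=
  2 ≤ thr u w x (lev u w j x) ∧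
    2 * bel u w x (lev u w j x) + thr u w x (lev u w j x) + t ≤ Fintype.card ι

/-- every vertex has imbalance at least `t` -/
def Unb (t : ℕ) : Prop := ∀ x c, 2 ≤ thr u w x c →
  Fintype.card ι + t ≤ 2 * bel u w x c + thr u w x c ∨
    2 * bel u w x c + thr u w x c + t ≤ Fintype.card ι

/-- the abscissas of the crossings -/
noncomputable def crs : Finset ℝ :=
  (univ ×ˢ univ).image (fun p : ι × ι => (w p.1 - w p.2) / (u p.1 - u p.2))

open Classical in
/-- abscissas of the upper vertices on the level `j` -/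
noncomputable def US (t j : ℕ) : Finset ℝ := (crs u w).filter (IsU u w t j)

open Classical in
/-- abscissas of the lower vertices on the level `j` -/
noncomputable def DS (t j : ℕ) : Finset ℝ := (crs u w).filter (IsD u w t j)

open Classical in
/-- abscissas of the vertices on the level `m` -/
noncomputable def VS (m : ℕ) : Finset ℝ :=
  (crs u w).filter (fun x => 2 ≤ thr u w x (lev u w m x))

variable {u w}

lemma mem_crs (hu : Function.Injective u) {x c : ℝ} (h : 2 ≤ thr u w x c) : x ∈ crs u w := by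
  unfold thr at h
  rw [← Nat.lt_iff_add_one_le, one_lt_card] at h
  obtain ⟨i, hi, k, hk, hik⟩ := h
  simp only [mem_filter, mem_univ, true_and] at hi hk
  unfold crs
  rw [mem_image]
  refine ⟨(i, k), by simp, ?_⟩
  have h1 : u i - u k ≠ 0 := sub_ne_zero.2 (fun h => hik (hu h))
  rw [div_eq_iff h1]
  unfold val at hi hk
  linarith

lemma mem_US (hu : Function.Injective u) {t j : ℕ} {x : ℝ} :
    x ∈ US u w t j ↔ IsU u w t j x := by
  simp only [US, mem_filter]
  exact ⟨fun h => h.2, fun h => ⟨mem_crs hu h.1, h⟩⟩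

lemma mem_DS (hu : Function.Injective u) {t j : ℕ} {x : ℝ} :
    x ∈ DS u w t j ↔ IsD u w t j x := by
  simp only [DS, mem_filter]
  exact ⟨fun h => h.2, fun h => ⟨mem_crs hu h.1, h⟩⟩

lemma mem_VS (hu : Function.Injective u) {m : ℕ} {x : ℝ} :
    x ∈ VS u w m ↔ 2 ≤ thr u w x (lev u w m x) := by
  simp only [VS, mem_filter]
  exact ⟨fun h => h.2, fun h => ⟨mem_crs hu h, h⟩⟩

lemma isU_up {t j j' : ℕ} {x : ℝ} (h : IsU u w t j x) (hj : j < Fintype.card ι) (hjj : j ≤ j')
    (hz : j + j' < Fintype.card ι + t) :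
    lev u w j' x = lev u w j x ∧ IsU u w t j' x := by
  have h1 := lev_spec (u := u) (w := w) hj x
  have h2 : lev u w j' x = lev u w j x := by
    apply lev_up hj hjj
    rw [wbel_eq]
    have := h.2
    omega
  refine ⟨h2, ?_⟩
  unfold IsU
  rw [h2]
  exact h

lemma isD_down {t j j' : ℕ} {x : ℝ} (h : IsD u w t j' x) (hj' : j' < Fintype.card ι)
    (hjj : j ≤ j') (hz : Fintype.card ι ≤ t + j + j' + 1) :
    lev u w j x = lev u w j' x ∧ IsD u w t j x := by
  have h1 := lev_spec (u := u) (w := w) hj' x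
  have h2 : lev u w j x = lev u w j' x := by
    apply lev_down hj' hjj
    have h3 := h.2
    have h4 := h1.2
    rw [wbel_eq] at h4
    omega
  refine ⟨h2, ?_⟩
  unfold IsD
  rw [h2]
  exact h

lemma not_isU_isD {t j : ℕ} (ht : 1 ≤ t) {x : ℝ} (h : IsU u w t j x) (h' : IsD u w t j x) :
    False := by
  have h1 := h.2
  have h2 := h'.2
  omega

/-- a strictly concave triple of the level forces an upper vertex -/
theorem conc {t j : ℕ} (H : Unb u w t) (hj : j < Fintype.card ι)
    (hz : Fintype.card ι ≤ 2 * j + t + 1) {x1 z x3 : ℝ} (h1 : x1 < z) (h3 : z < x3)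
    (hc : (lev u w j x3 - lev u w j z) * (z - x1) < (lev u w j z - lev u w j x1) * (x3 - z)) :
    ∃ y ∈ Set.Ioo x1 x3, IsU u w t j y := by
  have e1 : 0 < z - x1 := by linarith
  have e3 : 0 < x3 - z := by linarith
  have hab : (lev u w j x3 - lev u w j z) / (x3 - z) < (lev u w j z - lev u w j x1) / (z - x1) := by
    rw [div_lt_div_iff₀ e3 e1]
    exact hc
  obtain ⟨s, hs, hgen⟩ := (Set.Ioo_infinite hab).exists_notMem_finset (univ.image u)
  have hs1 : s * (z - x1) < lev u w j z - lev u w j x1 := by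
    rw [← lt_div_iff₀ e1]
    exact hs.2
  have hs3 : lev u w j x3 - lev u w j z < s * (x3 - z) := by
    rw [← div_lt_iff₀ e3]
    exact hs.1
  have hcont : Continuous (fun x => lev u w j x - s * x) :=
    (lev_cont hj).sub (continuous_const.mul continuous_id)
  obtain ⟨y, hy, hmax⟩ := isCompact_Icc.exists_isMaxOn
    (⟨z, h1.le, h3.le⟩ : (Set.Icc x1 x3).Nonempty) hcont.continuousOn
  have hyz : lev u w j z - s * z ≤ lev u w j y - s * y := hmax ⟨h1.le, h3.le⟩
  have hy1 : x1 < y := by
    refine lt_of_le_of_ne hy.1 (fun h => ?_)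
    subst h
    linarith
  have hy3 : y < x3 := by
    refine lt_of_le_of_ne hy.2 (fun h => ?_)
    subst h
    linarith
  have hloc : ∀ᶠ x in 𝓝 y, lev u w j x - s * x ≤ lev u w j y - s * y := by
    filter_upwards [Icc_mem_nhds hy1 hy3] with x hx using hmax hx
  have hsum := local_max_sum hj s y hloc
  have h0 : (univ.filter (fun i => val u w y i = lev u w j y ∧ u i = s)).card = 0 := by
    rw [card_eq_zero, filter_eq_empty_iff]
    intro i _ hi
    exact hgen (mem_image.2 ⟨i, mem_univ _, hi.2⟩)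
  rw [h0, add_zero] at hsum
  have hb := (lev_spec (u := u) (w := w) hj y).1
  have hT : 2 ≤ thr u w y (lev u w j y) := by omega
  refine ⟨y, ⟨hy1, hy3⟩, hT, ?_⟩
  rcases H y _ hT with h | h
  · exact h
  · omega

/-- in a piece without upper vertices the level lies above its lines -/
theorem supp {t j : ℕ} (H : Unb u w t) (hj : j < Fintype.card ι)
    (hz : Fintype.card ι ≤ 2 * j + t) {x0 x : ℝ} {i : ι}
    (h0 : ∀ᶠ x' in 𝓝 x0, lev u w j x' = val u w x' i)
    (hno : ∀ y, (x0 < y ∧ y < x) ∨ (x < y ∧ y < x0) → ¬ IsU u w t j y) :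
    val u w x i ≤ lev u w j x := by
  by_contra hcon
  push Not at hcon
  have h00 : lev u w j x0 = val u w x0 i := h0.self_of_nhds
  rcases lt_trichotomy x0 x with hlt | heq | hgt
  · have hev : ∀ᶠ z in 𝓝[>] x0, lev u w j z = val u w z i ∧ z < x :=
      (h0.filter_mono nhdsWithin_le_nhds).and
        ((gt_mem_nhds hlt).filter_mono nhdsWithin_le_nhds)
    obtain ⟨z, ⟨hz1, hz2⟩, hz3⟩ := (hev.and self_mem_nhdsWithin).exists
    have hz3' : x0 < z := hz3
    obtain ⟨y, hy, hU⟩ := conc H hj (by omega) hz3' hz2 (by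
      have e1 : 0 < z - x0 := by linarith
      have e3 : 0 < x - z := by linarith
      have f1 : lev u w j z - lev u w j x0 = (z - x0) * u i := by
        rw [hz1, h00]; unfold val; ring
      have f2 : lev u w j x - lev u w j z < (x - z) * u i := by
        rw [hz1]; unfold val at hcon ⊢; linarith
      rw [f1]
      calc _ < (x - z) * u i * (z - x0) := mul_lt_mul_of_pos_right f2 e1
        _ = _ := by ring)
    exact hno y (Or.inl hy) hU
  · subst heq
    linarith
  · have hev : ∀ᶠ z in 𝓝[<] x0, lev u w j z = val u w z i ∧ x < z :=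
      (h0.filter_mono nhdsWithin_le_nhds).and
        ((lt_mem_nhds hgt).filter_mono nhdsWithin_le_nhds)
    obtain ⟨z, ⟨hz1, hz2⟩, hz3⟩ := (hev.and self_mem_nhdsWithin).exists
    have hz3' : z < x0 := hz3
    obtain ⟨y, hy, hU⟩ := conc H hj (by omega) hz2 hz3' (by
      have e1 : 0 < x0 - z := by linarith
      have e3 : 0 < z - x := by linarith
      have f1 : lev u w j x0 - lev u w j z = (x0 - z) * u i := by
        rw [hz1, h00]; unfold val; ring
      have f2 : (z - x) * u i < lev u w j z - lev u w j x := by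
        rw [hz1]; unfold val at hcon ⊢; linarith
      rw [f1]
      calc _ = (z - x) * u i * (x0 - z) := by ring
        _ < _ := mul_lt_mul_of_pos_right f2 e1)
    exact hno y (Or.inr hy) hU

/-- a level without vertices on an open interval is a segment of a line -/
theorem const_line {j : ℕ} (hj : j < Fintype.card ι) {z1 z2 : ℝ} (hz : z1 < z2)
    (h : ∀ x ∈ Set.Ioo z1 z2, ¬ 2 ≤ thr u w x (lev u w j x)) :
    ∃ i, ∀ x ∈ Set.Icc z1 z2, lev u w j x = val u w x i := by
  obtain ⟨x0, hx0⟩ := exists_between hz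
  obtain ⟨i, hi⟩ := exists_on_lev' (u := u) (w := w) hj x0
  refine ⟨i, ?_⟩
  have hclosed : IsClosed {x | lev u w j x = val u w x i} :=
    isClosed_eq (lev_cont hj) (val_cont i)
  set S : Set ℝ := {x | x ∈ Set.Ioo z1 z2 ∧ lev u w j x = val u w x i} with hS
  have hopen : IsOpen S := by
    rw [isOpen_iff_mem_nhds]
    rintro x ⟨hx1, hx2⟩
    filter_upwards [Ioo_mem_nhds hx1.1 hx1.2, simple_local hj (h x hx1) hx2.symm] with y hy1 hy2
    exact ⟨hy1, hy2.1⟩
  have hcl : closure S ⊆ {x | lev u w j x = val u w x i} :=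
    closure_minimal (fun x hx => hx.2) hclosed
  have hsub : Set.Ioo z1 z2 ⊆ S := by
    apply isPreconnected_Ioo.subset_of_closure_inter_subset hopen
    · exact ⟨x0, hx0, hx0, hi.symm⟩
    · rintro x ⟨hx1, hx2⟩
      exact ⟨hx2, hcl hx1⟩
  intro x hx
  have h1 : x ∈ closure (Set.Ioo z1 z2) := by
    rw [closure_Ioo hz.ne]
    exact hx
  exact hcl (closure_mono hsub h1)

/-- faces have at least three vertices -/
theorem face {t j : ℕ} (H : Unb u w t) (hu : Function.Injective u) (ht : 1 ≤ t)
    (hj : j + 1 < Fintype.card ι) (hz : Fintype.card ι ≤ 2 * j + t)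
    (hz' : 2 * (j + 1) + 2 ≤ Fintype.card ι + t) :
    2 * ((US u w t j).card + (DS u w t (j + 1)).card) ≤
      (US u w t (j + 1)).card + (DS u w t j).card + 1 := by
  classical
  have hsU : US u w t j ⊆ US u w t (j + 1) := by
    intro x hx
    rw [mem_US hu] at hx ⊢
    exact (isU_up hx (by omega) (by omega) (by omega)).2
  have hsD : DS u w t (j + 1) ⊆ DS u w t j := by
    intro x hx
    rw [mem_DS hu] at hx ⊢
    exact (isD_down hx (by omega) (by omega) (by omega)).2
  have hdisj : Disjoint (US u w t j) (DS u w t (j + 1)) := by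
    rw [disjoint_left]
    intro x hx hx'
    exact not_isU_isD ht ((mem_US hu).1 (hsU hx)) ((mem_DS hu).1 hx')
  have hint := card_le_of_interleaved (s := US u w t j ∪ DS u w t (j + 1))
    (t := (US u w t (j + 1) \ US u w t j) ∪ (DS u w t j \ DS u w t (j + 1))) (by
    intro x hx y hy hxy hno
    by_contra hcon
    push Not at hcon
    have hnoT : ∀ z ∈ Set.Ioo x y,
        z ∉ (US u w t (j + 1) \ US u w t j) ∪ (DS u w t j \ DS u w t (j + 1)) := by
      intro z hz1 hz2
      exact absurd hz1.2 (not_lt.2 (hcon z hz2 hz1.1))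
    have hs0 : ∀ z ∈ Set.Ioo x y, ¬ 2 ≤ thr u w z (lev u w j z) := by
      intro z hz1 hT
      have n1 := hnoT z hz1
      have n2 : z ∉ US u w t j ∪ DS u w t (j + 1) := fun hzs => hno z hzs hz1
      rw [mem_union, not_or] at n1 n2
      rcases H z _ hT with hh | hh
      · exact n2.1 ((mem_US hu).2 ⟨hT, hh⟩)
      · exact n1.2 (mem_sdiff.2 ⟨(mem_DS hu).2 ⟨hT, hh⟩, n2.2⟩)
    have hs1 : ∀ z ∈ Set.Ioo x y, ¬ 2 ≤ thr u w z (lev u w (j + 1) z) := by
      intro z hz1 hT
      have n1 := hnoT z hz1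
      have n2 : z ∉ US u w t j ∪ DS u w t (j + 1) := fun hzs => hno z hzs hz1
      rw [mem_union, not_or] at n1 n2
      rcases H z _ hT with hh | hh
      · exact n1.1 (mem_sdiff.2 ⟨(mem_US hu).2 ⟨hT, hh⟩, n2.1⟩)
      · exact n2.2 ((mem_DS hu).2 ⟨hT, hh⟩)
    have hends : ∀ z ∈ US u w t j ∪ DS u w t (j + 1), lev u w (j + 1) z = lev u w j z := by
      intro z hzs
      rcases mem_union.1 hzs with hh | hh
      · exact (isU_up ((mem_US hu).1 hh) (by omega) (by omega) (by omega)).1
      · exact (isD_down ((mem_DS hu).1 hh) (by omega) (by omega) (by omega)).1.symm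
    obtain ⟨i, hi⟩ := const_line (by omega) hxy hs0
    obtain ⟨k, hk⟩ := const_line hj hxy hs1
    have e1 : val u w x i = val u w x k := by
      rw [← hi x ⟨le_refl _, hxy.le⟩, ← hk x ⟨le_refl _, hxy.le⟩, hends x hx]
    have e2 : val u w y i = val u w y k := by
      rw [← hi y ⟨hxy.le, le_refl _⟩, ← hk y ⟨hxy.le, le_refl _⟩, hends y hy]
    have e3 : u i = u k := by
      unfold val at e1 e2
      have e4 : (y - x) * (u i - u k) = 0 := by linarith
      rcases mul_eq_zero.1 e4 with e5 | e5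
      · linarith
      · linarith
    obtain ⟨z, hz1⟩ := exists_between hxy
    have hik := hu e3
    subst hik
    have e6 : lev u w (j + 1) z = lev u w j z := by
      rw [hi z ⟨hz1.1.le, hz1.2.le⟩, hk z ⟨hz1.1.le, hz1.2.le⟩]
    apply hs0 z hz1
    have g1 := lev_spec (u := u) (w := w) (j := j) (by omega) z
    have g2 := lev_spec (u := u) (w := w) hj z
    rw [e6, wbel_eq] at g2
    omega)
  rw [card_union_of_disjoint hdisj] at hint
  have hc1 := card_union_le (US u w t (j + 1) \ US u w t j) (DS u w t j \ DS u w t (j + 1))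
  rw [card_sdiff_of_subset hsU, card_sdiff_of_subset hsD] at hc1
  have hc2 := card_le_card hsU
  have hc3 := card_le_card hsD
  omega

end MP_6c69fd_co
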